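import Pool.Agent.H89.GEN.Poly
import Pool.Agent.H19.BFL.Stmts
import Pool.Agent.H32.Dense.Split
import Pool.Agent.H32.Dense.Conf

/-!
# Events, images of a full vector in one dimension

Pure lemmas for the step W0 (hidden shapes) with one height coordinate.
-/

set_option autoImplicit false

namespace Pool.MIC

open Finset Real
open Pool.Agent.H49.Ent Pool.Agent.H32.Dense Pool.STK Pool.BFL

variable {Ω : Type} [Fintype Ω]

theorem law_True (p : Ω → ℝ) (E : Ω → Prop) : law p E True = Pb p E := by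
  classical
  unfold law Pb
  refine Finset.sum_congr rfl fun ω _ => ?_
  by_cases h : E ω <;> simp [h]

theorem law_False (p : Ω → ℝ) (E : Ω → Prop) : law p E False = Pb p (fun ω => ¬ E ω) := by
  classical
  unfold law Pb
  refine Finset.sum_congr rfl fun ω _ => ?_
  by_cases h : E ω <;> simp [h]

theorem Pb_nonneg {p : Ω → ℝ} (hp : ∀ ω, 0 ≤ p ω) (E : Ω → Prop) : 0 ≤ Pb p E := by
  rw [← law_True]
  exact law_nonneg hp _ _

theorem Pb_not {p : Ω → ℝ} (h1 : ∑ ω, p ω = 1) (E : Ω → Prop) :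
    Pb p E + Pb p (fun ω => ¬ E ω) = 1 := by
  classical
  unfold Pb
  rw [← Finset.sum_add_distrib, ← h1]
  refine Finset.sum_congr rfl fun ω _ => ?_
  by_cases h : E ω <;> simp [h]

theorem CH_swc {p : Ω → ℝ} (hp : ∀ ω, 0 ≤ p ω) {S T U : Type} (X : Ω → S) (A : Ω → T)
    (B : Ω → U) : CH p X (fun ω => (A ω, B ω)) = CH p X (fun ω => (B ω, A ω)) := by
  refine CH_congr hp ?_ ?_ ?_ ?_ <;>
  · intro w w' _ _ h
    have h' := Prod.ext_iff.1 h
    simp only [Prod.mk.injEq] at h'
    first | exact h'.1 | exact Prod.ext h'.2 h'.1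

theorem CH_swl {p : Ω → ℝ} (hp : ∀ ω, 0 ≤ p ω) {S T U : Type} (A : Ω → T) (B : Ω → U)
    (W : Ω → S) : CH p (fun ω => (A ω, B ω)) W = CH p (fun ω => (B ω, A ω)) W := by
  refine CH_congr hp ?_ ?_ (fun _ _ _ _ h => h) (fun _ _ _ _ h => h) <;>
  · intro w w' _ _ h
    have h' := Prod.ext_iff.1 (Prod.ext_iff.1 h).1
    exact Prod.ext h'.2 h'.1

/-- The law given an event. -/
theorem isLaw_ev {p : Ω → ℝ} (hp : IsLaw p) (E : Ω → Prop) (hE : 0 < Pb p E) :
    IsLaw (cond p E True) :=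
  ⟨cond_nonneg hp.nonneg E True, sum_cond p E (by rw [law_True]; exact hE.ne')⟩

theorem ev_pos {p : Ω → ℝ} (hp : ∀ ω, 0 ≤ p ω) (E : Ω → Prop) {ω : Ω}
    (h : 0 < cond p E True ω) : 0 < p ω ∧ E ω := by
  have := (cond_pos_iff hp E True ω).1 h
  exact ⟨this.1, by simpa using this.2⟩

/-- Splitting a conditional entropy along an event. -/
theorem CH_two {p : Ω → ℝ} (hp : ∀ ω, 0 ≤ p ω) {S T : Type} (X : Ω → S) (W : Ω → T)
    (E : Ω → Prop) : CH p X (fun ω => (W ω, E ω)) =
      Pb p E * CH (cond p E True) X W +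
        Pb p (fun ω => ¬ E ω) * CH (cond p E False) X W := by
  classical
  rw [CH_split hp X W E]
  have h1 : univ.image E ⊆ ({True, False} : Finset Prop) := by
    intro x _
    by_cases h : x <;> simp [h]
  have h2 : ∀ j ∈ ({True, False} : Finset Prop), j ∉ univ.image E →
      law p E j * CH (cond p E j) X W = 0 := by
    intro j _ hj
    rw [law_eq_zero_of_notMem p E hj, zero_mul]
  rw [Finset.sum_subset h1 h2, Finset.sum_pair (by simp), law_True, law_False]

/-- The entropy given an event, from below. -/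
theorem CH_ev_le {p : Ω → ℝ} (hp : ∀ ω, 0 ≤ p ω) {S T : Type} (X : Ω → S) (W : Ω → T)
    (E : Ω → Prop) : Pb p E * CH (cond p E True) X W ≤ CH p X W := by
  have h1 := CH_two hp X W E
  have h2 : CH p X (fun ω => (W ω, E ω)) ≤ CH p X W :=
    CH_mono_cond hp fun _ _ _ _ h => (Prod.ext_iff.1 h).1
  have h3 : 0 ≤ Pb p (fun ω => ¬ E ω) * CH (cond p E False) X W :=
    mul_nonneg (Pb_nonneg hp _) (CH_nonneg (cond_nonneg hp E False) _ _)
  linarith

/-- A binary variable has at most one bit. -/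
theorem CH_prop_le {p : Ω → ℝ} (hp : ∀ ω, 0 ≤ p ω) (h1 : ∑ ω, p ω = 1) {T : Type}
    (E : Ω → Prop) (W : Ω → T) : CH p E W ≤ Real.log 2 := by
  classical
  have h := CH_le_card hp h1 E W (fun _ => ({True, False} : Finset Prop)) (fun ω _ => by
    by_cases h : E ω <;> simp [h])
  refine h.trans (le_of_eq ?_)
  rw [Finset.card_pair (by simp)]
  simp only [Nat.cast_ofNat]
  rw [Ex_const h1]

/-- **Mutual information on an event.** -/
theorem mi_event {p : Ω → ℝ} (hp : IsLaw p) {S T U : Type} (R : Ω → S) (G : Ω → T) (Z : Ω → U)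
    (hG : Det p Z G) {θ : ℝ} (hθ : CH p R G ≤ CH p R Z + θ) (E : Ω → Prop) :
    Pb p E * CH (cond p E True) R G ≤ Pb p E * CH (cond p E True) R Z + (θ + Real.log 2) := by
  have h1 := CH_two hp.nonneg R G E
  have h2 := CH_two hp.nonneg R Z E
  have h3 : CH p R (fun ω => (G ω, E ω)) ≤ CH p R G :=
    CH_mono_cond hp.nonneg fun _ _ _ _ h => (Prod.ext_iff.1 h).1
  have h4 : CH p R Z ≤ CH p R (fun ω => (Z ω, E ω)) + Real.log 2 := by
    have a1 := CH_chain hp.nonneg E R Z
    have a2 := CH_chain hp.nonneg R E Z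
    have a3 := CH_prop_le hp.nonneg hp.sum_one E Z
    have a4 := CH_swl hp.nonneg E R Z
    have a5 : 0 ≤ CH p E (fun ω => (R ω, Z ω)) := CH_nonneg hp.nonneg _ _
    have a6 := CH_swc hp.nonneg R E Z
    linarith
  have h5 : CH (cond p E False) R Z ≤ CH (cond p E False) R G :=
    CH_mono_cond (cond_nonneg hp.nonneg E False) fun w w' a b h =>
      hG w w' ((cond_pos_iff hp.nonneg E False w).1 a).1
        ((cond_pos_iff hp.nonneg E False w').1 b).1 h
  have h6 := mul_le_mul_of_nonneg_left h5 (Pb_nonneg hp.nonneg (fun ω => ¬ E ω))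
  linarith

end Pool.MIC
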