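import Pool.Agent.H46.MIC.Stm

/-!
# Pairs of copies, unions, rounded polynomials
-/

set_option autoImplicit false

namespace Pool.MIC

open Finset Polynomial
open Pool.Agent.H49.Ent Pool.Agent.H32.Dense Pool.STK Pool.BFL Pool.LBL
open Pool.K2S (cpn)

section

variable {Ω T : Type} [Fintype Ω]

/-- Marginals of pairs. -/
theorem cpn_pair {q : Ω → ℝ} (hq : ∀ ω, 0 ≤ q ω) (z : Ω → T) (n : ℕ) {i i' : Fin (n + 1)}
    (hii : i ≠ i') : Marg (cpn q z n) (dbl q z) (fun w => (w i, w i')) := by
  classical
  rintro ⟨a, a'⟩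
  have hn : 1 ≤ n := by
    rcases Nat.eq_zero_or_pos n with h | h
    · have h1 := i.2
      have h2 := i'.2
      exact absurd (Fin.ext (by omega)) hii
    · exact h
  have h1 : ∀ w : Fin (n + 1) → Ω, (if (w i, w i') = (a, a') then cpn q z n w else 0) =
      (∏ j, if j = i then (if w j = a then q (w j) else 0) else
        if j = i' then (if w j = a' ∧ z a = z a' then q (w j) else 0) else
        (if z (w j) = z a then q (w j) else 0)) / law q z (z a) ^ n := by
    intro w
    by_cases hi : (w i, w i') = (a, a')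
    · rw [if_pos hi]
      obtain ⟨e1, e2⟩ := Prod.ext_iff.1 hi
      simp only at e1 e2
      unfold cpn
      by_cases hz : ∀ j, z (w j) = z (w 0)
      · have hz' : ∀ j, z (w j) = z a := fun j => by rw [hz j, ← hz i, e1]
        rw [if_pos hz, ← hz i, e1]
        congr 1
        refine Finset.prod_congr rfl fun j _ => ?_
        by_cases hj : j = i
        · subst hj; rw [if_pos rfl, if_pos e1]
        · by_cases hj' : j = i'
          · subst hj'
            rw [if_neg hj, if_pos rfl, if_pos ⟨e2, by rw [← hz' j, e2]⟩]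
          · rw [if_neg hj, if_neg hj', if_pos (hz' j)]
      · rw [if_neg hz]
        have : ∃ j, z (w j) ≠ z a := by
          by_contra hc
          push Not at hc
          exact hz fun j => by rw [hc j, hc 0]
        obtain ⟨j, hj⟩ := this
        have hji : j ≠ i := by
          rintro rfl
          exact hj (by rw [e1])
        by_cases hj' : j = i'
        · rw [Finset.prod_eq_zero (Finset.mem_univ j), zero_div]
          rw [if_neg hji, if_pos hj', if_neg]
          rintro ⟨h3, h4⟩
          exact hj (by rw [h3, h4])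
        · rw [Finset.prod_eq_zero (Finset.mem_univ j), zero_div]
          rw [if_neg hji, if_neg hj', if_neg hj]
    · rw [if_neg hi]
      by_cases h2 : w i = a
      · have h3 : w i' ≠ a' := fun h => hi (Prod.ext h2 h)
        rw [Finset.prod_eq_zero (Finset.mem_univ i'), zero_div]
        rw [if_neg (Ne.symm hii), if_pos rfl, if_neg fun h => h3 h.1]
      · rw [Finset.prod_eq_zero (Finset.mem_univ i), zero_div]
        rw [if_pos rfl, if_neg h2]
  have h1' : (∑ w, if (w i, w i') = (a, a') then cpn q z n w else 0) =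
      (∑ w : Fin (n + 1) → Ω, ∏ j, if j = i then (if w j = a then q (w j) else 0) else
        if j = i' then (if w j = a' ∧ z a = z a' then q (w j) else 0) else
        (if z (w j) = z a then q (w j) else 0)) / law q z (z a) ^ n := by
    rw [Finset.sum_div]
    exact Finset.sum_congr rfl fun w _ => h1 w
  have h2 := Finset.prod_univ_sum (fun _ : Fin (n + 1) => (univ : Finset Ω))
    (fun j x => if j = i then (if x = a then q x else 0) else
      if j = i' then (if x = a' ∧ z a = z a' then q x else 0) else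
        (if z x = z a then q x else 0))
  rw [Fintype.piFinset_univ] at h2
  rw [← h2] at h1'
  have h3 : ∀ j : Fin (n + 1), (∑ x, if j = i then (if x = a then q x else 0) else
      if j = i' then (if x = a' ∧ z a = z a' then q x else 0) else
      (if z x = z a then q x else 0)) = if j = i then q a else
        if j = i' then (if z a = z a' then q a' else 0) else law q z (z a) := by
    intro j
    by_cases hj : j = i
    · simp [hj]
    · by_cases hj' : j = i'
      · simp only [hj', if_neg (Ne.symm hii), if_true]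
        by_cases hz : z a = z a'
        · simp [hz]
        · simp [hz]
      · simp only [hj, hj', if_false]
        rfl
  rw [Finset.prod_congr rfl fun j _ => h3 j] at h1'
  have h4 : (∏ j : Fin (n + 1), if j = i then q a else
      if j = i' then (if z a = z a' then q a' else 0) else law q z (z a)) =
      q a * (if z a = z a' then q a' else 0) * law q z (z a) ^ (n - 1) := by
    rw [← Finset.mul_prod_erase univ _ (Finset.mem_univ i), if_pos rfl,
      ← Finset.mul_prod_erase (univ.erase i) _ (Finset.mem_erase.2 ⟨Ne.symm hii, Finset.mem_univ i'⟩),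
      if_neg (Ne.symm hii), if_pos rfl, mul_assoc]
    congr 2
    have h5 : ∀ j ∈ (univ.erase i).erase i', (if j = i then q a else
        if j = i' then (if z a = z a' then q a' else 0) else law q z (z a)) =
        law q z (z a) := by
      intro j hj
      rw [Finset.mem_erase, Finset.mem_erase] at hj
      rw [if_neg hj.2.1, if_neg hj.1]
    rw [Finset.prod_congr rfl h5, Finset.prod_const]
    congr 1
    rw [Finset.card_erase_of_mem (Finset.mem_erase.2 ⟨Ne.symm hii, Finset.mem_univ i'⟩),
      Finset.card_erase_of_mem (Finset.mem_univ i), Finset.card_univ, Fintype.card_fin]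
    omega
  rw [h4] at h1'
  have h6 : dbl q z (a, a') = q a * (if z a = z a' then q a' else 0) / law q z (z a) := by
    unfold dbl glue
    by_cases hz : z a = z a'
    · simp [hz]
    · simp [hz]
  rw [h6]
  refine Eq.trans ?_ (h1'.trans ?_)
  · refine Finset.sum_congr rfl fun w _ => ?_
    by_cases h7 : (w i, w i') = (a, a')
    · rw [if_pos h7, if_pos h7]
    · rw [if_neg h7, if_neg h7]
  · rcases (hq a).eq_or_lt with h0 | h0
    · rw [← h0]
      simp
    · have hl := law_pos hq z h0
      obtain ⟨n', rfl⟩ : ∃ n', n = n' + 1 := ⟨n - 1, by omega⟩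
      rw [Nat.add_sub_cancel, pow_succ]
      field_simp

theorem Marg.Pb_eq {Ω' : Type} [Fintype Ω'] {q : Ω' → ℝ} {p : Ω → ℝ} {pr : Ω' → Ω}
    (h : Marg q p pr) (A : Ω → Prop) : Pb q (fun w => A (pr w)) = Pb p A := by
  classical
  have h1 := h.ex (fun w => if A w then 1 else 0)
  unfold Ex at h1
  unfold Pb
  simpa using h1

/-- The probability of an event given another event. -/
theorem Pb_cond_le {p : Ω → ℝ} (hp : ∀ ω, 0 ≤ p ω) (E A : Ω → Prop) (hE : 0 < Pb p E) :
    Pb (cond p E True) A ≤ Pb p A / Pb p E := by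
  classical
  unfold Pb at hE ⊢
  rw [Finset.sum_div]
  refine Finset.sum_le_sum fun ω _ => ?_
  have hl : law p E True = ∑ w, if E w then p w else 0 := law_True p E
  unfold Pool.Agent.H49.Ent.cond
  by_cases hA : A ω
  · rw [if_pos hA, if_pos hA]
    by_cases hEω : E ω
    · rw [if_pos (by simpa using hEω), hl]
    · rw [if_neg (by simpa using hEω)]
      exact div_nonneg (hp ω) hE.le
  · rw [if_neg hA, if_neg hA, zero_div]

theorem Pb_cond_ge {p : Ω → ℝ} (E A : Ω → Prop) (hE : 0 < Pb p E) :
    Pb (cond p E True) A * Pb p E = Pb p (fun ω => E ω ∧ A ω) := by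
  classical
  unfold Pb at hE ⊢
  rw [Finset.sum_mul]
  refine Finset.sum_congr rfl fun ω _ => ?_
  have hl : law p E True = ∑ w, if E w then p w else 0 := law_True p E
  unfold Pool.Agent.H49.Ent.cond
  by_cases hA : A ω
  · by_cases hEω : E ω
    · rw [if_pos hA, if_pos (by simpa using hEω), if_pos ⟨hEω, hA⟩, hl]
      field_simp
    · rw [if_pos hA, if_neg (by simpa using hEω), if_neg (fun h => hEω h.1), zero_mul]
  · rw [if_neg hA, if_neg (fun h => hA h.2), zero_mul]

theorem Pb_exists_le {ι : Type} [Fintype ι] {p : Ω → ℝ} (hp : ∀ ω, 0 ≤ p ω)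
    (A : ι → Ω → Prop) : Pb p (fun ω => ∃ i, A i ω) ≤ ∑ i, Pb p (A i) := by
  classical
  unfold Pb
  rw [Finset.sum_comm]
  refine Finset.sum_le_sum fun ω _ => ?_
  by_cases h : ∃ i, A i ω
  · rw [if_pos h]
    obtain ⟨i, hi⟩ := h
    refine le_trans (le_of_eq ?_) (Finset.single_le_sum (f := fun j => if A j ω then p ω else 0)
      (fun j _ => ?_) (Finset.mem_univ i))
    · simp only [if_pos hi]
    · split_ifs
      · exact hp ω
      · exact le_rfl
  · rw [if_neg h]
    refine Finset.sum_nonneg fun j _ => ?_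
    split_ifs
    · exact hp ω
    · exact le_rfl

end

/-- The polynomial with the rounded coefficients. -/
noncomputable def Sp {k : ℕ} (D s : ℕ) (f : (Fin k →₀ ℕ) → ℤ) : Pl k :=
  ∑ α ∈ (Pool.Agent.H36.KBX.bx k D).filter (fun α => α.degree ≤ D),
    MvPolynomial.monomial α ((f α : ℝ) / 2 ^ s)

theorem coeff_Sp' {k : ℕ} (D s : ℕ) (f : (Fin k →₀ ℕ) → ℤ) (α : Fin k →₀ ℕ) :
    MvPolynomial.coeff α (Sp D s f) =
      if α ∈ (Pool.Agent.H36.KBX.bx k D).filter (fun α => α.degree ≤ D)
        then (f α : ℝ) / 2 ^ s else 0 := by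
  classical
  unfold Sp
  rw [MvPolynomial.coeff_sum]
  simp only [MvPolynomial.coeff_monomial]
  rw [Finset.sum_ite_eq']

theorem Sp_deg {k : ℕ} (D s : ℕ) (f : (Fin k →₀ ℕ) → ℤ) : (Sp D s f).totalDegree ≤ D := by
  classical
  unfold Sp
  refine (MvPolynomial.totalDegree_finsetSum _ _).trans (Finset.sup_le fun α hα => ?_)
  refine (MvPolynomial.totalDegree_monomial_le _ _).trans ?_
  have := (Finset.mem_filter.1 hα).2
  rw [Finsupp.degree_eq_sum] at this
  rw [Finsupp.sum_fintype _ _ (fun _ => rfl)]
  exact this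

/-- Rounding changes a nonconstant coefficient by at most `2 ^ (-s)`. -/
theorem coeff_sub_Sp {k D s : ℕ} {P : Pl k} (hP : P.totalDegree ≤ D) (α : Fin k →₀ ℕ)
    (hα : α ≠ 0) : |MvPolynomial.coeff α P - MvPolynomial.coeff α (Sp D s (rk s P))| ≤
      1 / 2 ^ s := by
  classical
  have h2 : (0 : ℝ) < 2 ^ s := by positivity
  rw [coeff_Sp']
  by_cases h : α ∈ (Pool.Agent.H36.KBX.bx k D).filter (fun α => α.degree ≤ D)
  · rw [if_pos h]
    unfold rk
    rw [if_neg hα]
    have h3 := Int.floor_le ((2 : ℝ) ^ s * MvPolynomial.coeff α P)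
    have h4 := Int.lt_floor_add_one ((2 : ℝ) ^ s * MvPolynomial.coeff α P)
    rw [abs_le]
    constructor
    · rw [neg_le_sub_iff_le_add, div_le_iff₀ h2, add_mul, div_mul_cancel₀ _ h2.ne']
      linarith
    · rw [sub_le_iff_le_add, ← add_div, le_div_iff₀ h2]
      linarith
  · rw [if_neg h]
    have h3 : MvPolynomial.coeff α P = 0 := by
      by_contra h4
      refine h (Finset.mem_filter.2 ⟨Pool.Agent.H36.KBX.support_bx P hP
        (MvPolynomial.mem_support_iff.2 h4), ?_⟩)
      refine le_trans ?_ hP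
      rw [Finsupp.degree_eq_sum]
      have h5 := MvPolynomial.le_totalDegree (MvPolynomial.mem_support_iff.2 h4)
      rw [Finsupp.sum_fintype _ _ (fun _ => rfl)] at h5
      exact h5
    rw [h3, sub_zero, abs_zero]
    positivity

/-- The gradient of the rounded polynomial. -/
theorem grad_Sp (k D : ℕ) (C₀ : ℝ) (hC₀ : 1 ≤ C₀) : ∃ C : ℝ, 1 ≤ C ∧ ∀ (P : Pl k) (s : ℕ),
    P.totalDegree ≤ D → ∀ (z : Fin k → ℝ), (∀ i, |z i| ≤ C₀) → ∀ l,
    |MvPolynomial.eval z (MvPolynomial.pderiv l P) -
      MvPolynomial.eval z (MvPolynomial.pderiv l (Sp D s (rk s P)))| ≤ C / 2 ^ s := by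
  classical
  refine ⟨(Pool.Agent.H36.KBX.bx k D).card * ((D + 1) * C₀ ^ (k * D)) + 1, by
    have : (0 : ℝ) ≤ (Pool.Agent.H36.KBX.bx k D).card * ((D + 1) * C₀ ^ (k * D)) := by positivity
    linarith, ?_⟩
  intro P s hP z hz l
  have h2 : (0 : ℝ) < 2 ^ s := by positivity
  obtain ⟨Q, hQ⟩ : ∃ Q : Pl k, Q = P - Sp D s (rk s P) -
    MvPolynomial.C (MvPolynomial.coeff 0 (P - Sp D s (rk s P))) := ⟨_, rfl⟩
  have hQd : Q.totalDegree ≤ D := by
    rw [hQ]
    refine (MvPolynomial.totalDegree_sub _ _).trans ?_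
    rw [MvPolynomial.totalDegree_C]
    refine max_le ?_ (Nat.zero_le _)
    exact (MvPolynomial.totalDegree_sub _ _).trans (max_le hP (Sp_deg D s _))
  have hQc : ∀ α, |MvPolynomial.coeff α Q| ≤ 1 / 2 ^ s := by
    intro α
    rw [hQ, MvPolynomial.coeff_sub, MvPolynomial.coeff_C]
    by_cases hα : α = 0
    · subst hα
      simp only [if_true, sub_self, abs_zero]
      positivity
    · rw [if_neg (Ne.symm hα), sub_zero, MvPolynomial.coeff_sub]
      exact coeff_sub_Sp hP α hα
  have h3 : MvPolynomial.eval z (MvPolynomial.pderiv l P) -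
      MvPolynomial.eval z (MvPolynomial.pderiv l (Sp D s (rk s P))) =
      MvPolynomial.eval z (MvPolynomial.pderiv l Q) := by
    rw [hQ]
    simp only [map_sub, MvPolynomial.pderiv_C, map_zero, sub_zero]
  rw [h3]
  have h4 := Pool.Agent.H36.KBX.eval_bound (MvPolynomial.pderiv l Q)
    ((Pool.Agent.H50.PW.totalDegree_pderiv_le Q l).trans hQd) (1 / 2 ^ s * (D + 1)) C₀ hC₀
    (fun α => Pool.Agent.H36.KBX.coeff_pderiv_bound Q hQd _ hQc l α) z hz
  refine h4.trans ?_
  have h5 : ((Pool.Agent.H36.KBX.bx k D).card : ℝ) * (1 / 2 ^ s * (D + 1) * C₀ ^ (k * D)) =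
      ((Pool.Agent.H36.KBX.bx k D).card * ((D + 1) * C₀ ^ (k * D))) / 2 ^ s := by
    ring
  rw [h5]
  exact div_le_div_of_nonneg_right (by linarith) h2.le

end Pool.MIC
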