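import Pool.Agent.H46.MIC.Pop

/-!
# W0 with one height coordinate

`kap` is the own shape, `n` the height at the centre, `nu = n + kap(Y)` the exact height. If `kap`
is almost independent of the exact point `(nu, Y)`, `Y` is full given the own leaf `(n, kap)` and
`nu` is not full given `Y`, then on an event the shape has few bits given the context.
-/

set_option autoImplicit false

namespace Pool.MIC

open Finset Real
open Pool.Agent.H49.Ent Pool.Agent.H32.Dense Pool.STK Pool.BFL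

variable {Ω : Type} [Fintype Ω]

theorem Pb_le_of_imp {p : Ω → ℝ} (hp : ∀ ω, 0 ≤ p ω) {A B : Ω → Prop}
    (h : ∀ ω, 0 < p ω → A ω → B ω) : Pb p A ≤ Pb p B := by
  classical
  unfold Pb
  refine Finset.sum_le_sum fun ω _ => ?_
  rcases (hp ω).eq_or_lt with h0 | h0
  · rw [← h0]
    split_ifs <;> exact le_rfl
  · by_cases hA : A ω
    · rw [if_pos hA, if_pos (h ω h0 hA)]
    · rw [if_neg hA]
      split_ifs
      · exact hp ω
      · exact le_rfl

/-- The event of the popular shapes has probability at least `t` if two copies are close with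
probability at least `2 t`. -/
theorem popE_ge {m : ℕ} {T : Type} {p : Ω → ℝ} (hp : IsLaw p) (Z : Ω → T) (kap : Ω → Pl m)
    (s : ℕ) {t : ℝ} (ht : 0 ≤ t)
    (h : 2 * t ≤ Pb (dbl p Z) (fun w : Ω × Ω => ¬ Lg s (kap w.1 - kap w.2))) :
    t ≤ Pb p (PopE p Z kap s t) := by
  classical
  obtain ⟨g, hg⟩ : ∃ g : Ω → ℝ, g = fun ω => Pb p (fun ω' => Z ω = Z ω' ∧
    ¬ Lg s (kap ω - kap ω')) := ⟨_, rfl⟩
  have h1 : Pb (dbl p Z) (fun w : Ω × Ω => ¬ Lg s (kap w.1 - kap w.2)) =
      ∑ ω, p ω * g ω / law p Z (Z ω) := by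
    unfold Pb
    rw [Fintype.sum_prod_type]
    refine Finset.sum_congr rfl fun ω _ => ?_
    rw [hg]
    simp only
    unfold Pb
    rw [Finset.mul_sum, Finset.sum_div]
    refine Finset.sum_congr rfl fun ω' _ => ?_
    unfold dbl glue
    by_cases h2 : Z ω = Z ω'
    · by_cases h3 : Lg s (kap ω - kap ω')
      · simp [h3]
      · simp [h2, h3]
    · simp [h2]
  have h2 : ∀ ω, p ω * g ω / law p Z (Z ω) ≤
      (if PopE p Z kap s t ω then p ω else 0) + t * p ω := by
    intro ω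
    rcases (hp.nonneg ω).eq_or_lt with h0 | h0
    · rw [← h0]
      simp
    · have hl := law_pos hp.nonneg Z h0
      have hgl : g ω ≤ law p Z (Z ω) := by
        rw [hg]
        simp only
        unfold Pb law
        refine Finset.sum_le_sum fun ω' _ => ?_
        by_cases h3 : Z ω = Z ω' ∧ ¬ Lg s (kap ω - kap ω')
        · rw [if_pos h3, if_pos h3.1.symm]
        · rw [if_neg h3]
          split_ifs
          · exact hp.nonneg ω'
          · exact le_rfl
      by_cases hE : PopE p Z kap s t ω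
      · rw [if_pos hE]
        have h3 : p ω * g ω / law p Z (Z ω) ≤ p ω := by
          rw [div_le_iff₀ hl]
          exact mul_le_mul_of_nonneg_left hgl h0.le
        have h4 : 0 ≤ t * p ω := mul_nonneg ht h0.le
        linarith
      · rw [if_neg hE, zero_add]
        unfold PopE at hE
        push Not at hE
        have hE' : g ω < t * law p Z (Z ω) := by rw [hg]; exact hE
        rw [div_le_iff₀ hl]
        have := mul_le_mul_of_nonneg_left hE'.le h0.le
        linarith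
  have h3 : ∑ ω, p ω * g ω / law p Z (Z ω) ≤ Pb p (PopE p Z kap s t) + t := by
    refine (Finset.sum_le_sum fun ω _ => h2 ω).trans (le_of_eq ?_)
    rw [Finset.sum_add_distrib, ← Finset.mul_sum, hp.sum_one, mul_one]
    rfl
  rw [h1] at h
  linarith

/-- **W0, one height coordinate.** -/
theorem w0s (m K : ℕ) : ∃ C : ℝ, 1 ≤ C ∧ ∀ (Ω Γ : Type) [Fintype Ω] (p : Ω → ℝ)
    (X A b s u : ℕ) (G : Ω → Γ) (Y : Ω → Fin m → ℤ) (n nu : Ω → ℤ) (kap : Ω → Pl m)
    (θ C₀ η : ℝ), IsLaw p → 1 ≤ u → 0 ≤ θ → 0 ≤ C₀ → 0 < η → η ≤ 1 → 0 < X →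
    (∀ ω, 0 < p ω → ∀ i, |((Y ω i : ℤ) : ℝ)| ≤ 2 ^ A * 2 ^ X) →
    (∀ ω, 0 < p ω → (kap ω).totalDegree ≤ K) →
    (∀ ω, 0 < p ω → ∀ k, k ≠ 0 → |MvPolynomial.coeff k (kap ω)| ≤ 2 ^ b) →
    (∀ ω, 0 < p ω → |((nu ω : ℤ) : ℝ) - (n ω : ℤ) - 2 ^ X *
      MvPolynomial.eval (fun i => ((Y ω i : ℤ) : ℝ) / 2 ^ X) (kap ω)| ≤ C₀) →
    CH p kap G ≤ CH p kap (fun ω => (nu ω, (Y ω, G ω))) + θ →
    m * (X * Real.log 2) - θ ≤ CH p Y (fun ω => (n ω, (kap ω, G ω))) →
    CH p nu (fun ω => (Y ω, G ω)) ≤ (1 - η) * (X * Real.log 2) →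
    C * (s + b + u + A + 1 + θ + C₀) + C * (X * (θ + A + 1) / u) ≤ η * X →
    ∃ E : Ω → Prop, η / 4 ≤ Pb p E ∧
      CH (cond p E True) (fun ω => rk s (kap ω)) G ≤
        C + Real.log (1 / η) + 4 * (θ + 1) / η := by
  classical
  obtain ⟨D, hD1, hD⟩ := one m K
  have hl2 : 0 < Real.log 2 := Real.log_pos (by norm_num)
  have hl2' : Real.log 2 ≤ 1 := by linarith [Real.log_two_lt_d9]
  have hl2'' : 1 / 2 ≤ Real.log 2 := by linarith [Real.log_two_gt_d9]
  have hl3 : 0 ≤ Real.log 3 := Real.log_nonneg (by norm_num)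
  obtain ⟨M, hM⟩ : ∃ M : ℝ, M = nM m K := ⟨_, rfl⟩
  have hM0 : 0 ≤ M := by rw [hM]; exact Nat.cast_nonneg _
  have hm0 : (0 : ℝ) ≤ m := Nat.cast_nonneg _
  refine ⟨8 * D + 4 * (3 * m + 20) + 2 * (M * Real.log 3) + 2, by
    have : 0 ≤ M * Real.log 3 := mul_nonneg hM0 hl3
    linarith, ?_⟩
  intro Ω Γ _ p X A b s u G Y n nu kap θ C₀ η hp hu hθ hC₀ hη hη1 hX hY hdeg hcf hnu H1 H2 H3 hsz
  have hX0 : (0 : ℝ) < X := by exact_mod_cast hX
  have hA0 : (0 : ℝ) ≤ A := Nat.cast_nonneg _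
  have hs0 : (0 : ℝ) ≤ s := Nat.cast_nonneg _
  have hb0 : (0 : ℝ) ≤ b := Nat.cast_nonneg _
  have hu1 : (1 : ℝ) ≤ u := by exact_mod_cast hu
  have hu0 : (0 : ℝ) < u := by linarith
  obtain ⟨Z, hZ⟩ : ∃ Z : Ω → ℤ × (Fin m → ℤ) × Γ, Z = fun ω => (nu ω, (Y ω, G ω)) := ⟨_, rfl⟩
  rw [← hZ] at H1
  obtain ⟨q, hq⟩ : ∃ q : Ω × Ω → ℝ, q = dbl p Z := ⟨_, rfl⟩
  have hq0 : ∀ w, 0 ≤ q w := fun w => by rw [hq]; exact dbl_nonneg hp.nonneg w
  have hm1 : Marg q p (fun w => w.1) := by rw [hq]; exact dbl_fst hp.nonneg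
  have hm2 : Marg q p (fun w => w.2) := by rw [hq]; exact dbl_snd hp.nonneg
  have hqlaw : IsLaw q := ⟨hq0, by rw [hm1.sum]; exact hp.sum_one⟩
  have hqp : ∀ w, 0 < q w → 0 < p w.1 ∧ 0 < p w.2 ∧ Z w.1 = Z w.2 := fun w hw =>
    ⟨hm1.pos hq0 hw, hm2.pos hq0 hw, by rw [hq] at hw; exact dbl_eq hp.nonneg hw⟩
  have hZe : ∀ w, 0 < q w → nu w.1 = nu w.2 ∧ Y w.1 = Y w.2 ∧ G w.1 = G w.2 := by
    intro w hw
    have h1 := (hqp w hw).2.2
    rw [hZ] at h1
    have h2 := Prod.ext_iff.1 h1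
    have h3 := Prod.ext_iff.1 h2.2
    exact ⟨h2.1, h3.1, h3.2⟩
  -- the position is full given both shapes
  have hfull : m * (X * Real.log 2) - 2 * θ ≤ CH q (fun w => Y w.1)
      (fun w => (n w.1, (kap w.1, (kap w.2, G w.1)))) := by
    have a1 : CH q (fun w => Y w.1) (fun w => (n w.1, (kap w.1, G w.1))) =
        CH p Y (fun ω => (n ω, (kap ω, G ω))) := hm1.CH Y (fun ω => (n ω, (kap ω, G ω)))
    have a2 := CH_bayes hq0 (fun w : Ω × Ω => Y w.1) (fun w => kap w.2)
      (fun w => (n w.1, (kap w.1, G w.1)))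
    have a3 : CH q (fun w => kap w.2) (fun w => (n w.1, (kap w.1, G w.1))) ≤ CH p kap G := by
      have h1 : CH q (fun w => kap w.2) (fun w => (n w.1, (kap w.1, G w.1))) ≤
          CH q (fun w => kap w.2) (fun w => G w.2) := by
        refine CH_mono_cond hq0 fun w w' hw hw' h => ?_
        have h2 := (Prod.ext_iff.1 (Prod.ext_iff.1 h).2).2
        rw [← (hZe w hw).2.2, ← (hZe w' hw').2.2]
        exact h2
      rw [hm2.CH kap G] at h1
      exact h1
    have a4 : CH p kap Z ≤ CH q (fun w => kap w.2)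
        (fun w => (Y w.1, (n w.1, (kap w.1, G w.1)))) := by
      have h1 : CH q (fun w => kap w.2) (fun w => (Z w.2, w.1)) = CH p kap Z := by
        rw [hq]
        exact CH_dbl_2 hp.nonneg kap (fun ω => ω)
      rw [← h1]
      refine CH_mono_cond hq0 fun w w' hw hw' h => ?_
      have h2 : w.1 = w'.1 := (Prod.ext_iff.1 h).2
      rw [h2]
    have a5 : CH q (fun w => Y w.1) (fun w => (n w.1, (kap w.1, (kap w.2, G w.1)))) =
        CH q (fun w => Y w.1) (fun w => (kap w.2, (n w.1, (kap w.1, G w.1)))) := by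
      refine CH_congr hq0 ?_ ?_ ?_ ?_ <;>
      · intro w w' _ _ h
        simp only [Prod.mk.injEq] at h
        try simp only [Prod.mk.injEq]
        tauto
    rw [a5, a2]
    linarith
  have hone := hD (Ω × Ω) (Pl m × (Pl m × Γ)) (Pl m × Γ) q X A (b + 1) s u (fun w => Y w.1)
    (fun w => n w.1) (fun w => n w.2) (fun w => (kap w.1, (kap w.2, G w.1)))
    (fun w => (kap w.2, G w.1)) (fun x => x.1 - x.2.1) (2 * θ) (2 * C₀) hqlaw hu (by linarith)
    (by linarith) (fun w hw => hY _ (hqp w hw).1)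
    (fun w hw => (MvPolynomial.totalDegree_sub _ _).trans
      (max_le (hdeg _ (hqp w hw).1) (hdeg _ (hqp w hw).2.1)))
    (fun w hw k hk => by
      have h1 := hcf _ (hqp w hw).1 k hk
      have h2 := hcf _ (hqp w hw).2.1 k hk
      rw [MvPolynomial.coeff_sub, pow_succ]
      rw [abs_le] at h1 h2 ⊢
      constructor <;> linarith)
    (fun w hw => by
      have h1 := hnu _ (hqp w hw).1
      have h2 := hnu _ (hqp w hw).2.1
      obtain ⟨e1, e2, _⟩ := hZe w hw
      rw [← e1, ← e2] at h2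
      simp only [map_sub]
      rw [abs_le] at h1 h2 ⊢
      constructor <;> linarith)
    hfull (fun w w' _ _ h => by
      have h2 := (Prod.ext_iff.1 h).2
      simp only [Prod.mk.injEq] at h2 ⊢
      tauto)
  have hc2 : CH q (fun w => n w.2) (fun w => (kap w.2, G w.1)) =
      CH p n (fun ω => (kap ω, G ω)) := by
    rw [← hm2.CH n (fun ω => (kap ω, G ω))]
    refine CH_congr hq0 (fun _ _ _ _ h => (Prod.ext_iff.1 h).1)
      (fun _ _ _ _ h => (Prod.ext_iff.1 h).1) ?_ ?_
    · intro w w' hw hw' h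
      simp only [Prod.mk.injEq] at h ⊢
      rw [← (hZe w hw).2.2, ← (hZe w' hw').2.2]
      exact h
    · intro w w' hw hw' h
      simp only [Prod.mk.injEq] at h ⊢
      rw [(hZe w hw).2.2, (hZe w' hw').2.2]
      exact h
  rw [hc2] at hone
  -- the entropy of the height
  have hYle : CH p Y (fun ω => (kap ω, G ω)) ≤ m * ((X + (A + 3)) * Real.log 2) := by
    have h1 := CH_le_vec hp.nonneg hp.sum_one Y (fun ω => (kap ω, G ω))
      (fun _ => 2 * (2 ^ A * 2 ^ X)) (fun ω ω' h h' _ k => by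
        have h2 := hY ω h k
        have h3 := hY ω' h' k
        push_cast
        rw [abs_le] at h2 h3 ⊢
        constructor <;> linarith)
    rw [Ex_const hp.sum_one] at h1
    refine h1.trans (mul_le_mul_of_nonneg_left ?_ hm0)
    have h4 : (2 : ℝ) * (2 * (2 ^ A * 2 ^ X)) + 1 ≤ 2 ^ (X + (A + 3)) := by
      have h5 : (1 : ℝ) ≤ 2 ^ A * 2 ^ X := by
        have h6 : (1 : ℝ) ≤ 2 ^ A := one_le_pow₀ (by norm_num)
        have h7 : (1 : ℝ) ≤ 2 ^ X := one_le_pow₀ (by norm_num)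
        nlinarith
      have h8 : (2 : ℝ) ^ (X + (A + 3)) = 8 * (2 ^ A * 2 ^ X) := by ring
      rw [h8]
      linarith
    have h9 := Real.log_le_log (by positivity) h4
    rw [Real.log_pow] at h9
    push_cast at h9
    exact h9
  have hlogC : Real.log (2 * (2 * C₀) + 1) ≤ 4 * C₀ := by
    have := Real.log_le_sub_one_of_pos (show (0 : ℝ) < 2 * (2 * C₀) + 1 by linarith)
    linarith
  have hlogC' : Real.log (4 * (2 * C₀) + 3) ≤ 8 * C₀ + 2 := by
    have := Real.log_le_sub_one_of_pos (show (0 : ℝ) < 4 * (2 * C₀) + 3 by linarith)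
    linarith
  have hn : CH p n (fun ω => (kap ω, G ω)) ≤ (1 - η) * (X * Real.log 2) +
      (m * (A + 3) + θ + 4 * C₀) := by
    have b1 := CH_bayes hp.nonneg Y n (fun ω => (kap ω, G ω))
    have b2 := CH_le_add hp.nonneg n nu (fun ω => (Y ω, (kap ω, G ω)))
    have b3 : CH p nu (fun ω => (Y ω, (kap ω, G ω))) ≤ CH p nu (fun ω => (Y ω, G ω)) := by
      refine CH_mono_cond hp.nonneg fun ω ω' _ _ h => ?_
      simp only [Prod.mk.injEq] at h ⊢
      tauto
    have b4 := CH_le_int hp.nonneg hp.sum_one n (fun ω => (nu ω, (Y ω, (kap ω, G ω))))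
      (fun _ => 2 * C₀) (fun ω ω' h h' hh => by
        simp only [Prod.mk.injEq] at hh
        obtain ⟨e1, e2, e3, _⟩ := hh
        have h1 := hnu ω h
        have h2 := hnu ω' h'
        rw [← e1, ← e2, ← e3] at h2
        push_cast
        rw [abs_le] at h1 h2 ⊢
        constructor <;> linarith)
    rw [Ex_const hp.sum_one] at b4
    have b5 : (m : ℝ) * ((X + (A + 3)) * Real.log 2) ≤ m * (X * Real.log 2) + m * (A + 3) := by
      have h1 : (m : ℝ) * ((A + 3) * Real.log 2) ≤ m * (A + 3) :=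
        mul_le_mul_of_nonneg_left (mul_le_of_le_one_right (by linarith) hl2') hm0
      have h2 : (m : ℝ) * ((X + (A + 3)) * Real.log 2) =
        m * (X * Real.log 2) + m * ((A + 3) * Real.log 2) := by ring
      linarith
    linarith
  obtain ⟨P, hP⟩ : ∃ P : ℝ, P = Pb q (fun w => Lg s (kap w.1 - kap w.2)) := ⟨_, rfl⟩
  have hone' : P * (X * Real.log 2) ≤ (1 - η / 2) * (X * Real.log 2) := by
    rw [hP]
    refine (hone.trans (add_le_add_left hn _)).trans ?_
    have c1 : D * (s + (b + 1 : ℕ) + u + A + 1) ≤ 2 * D * (s + b + u + A + 1 + θ + C₀) := by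
      push_cast
      have h0 : 0 ≤ D := by linarith
      have h1 : 0 ≤ D * (s + b + u + A) := by positivity
      have h2 : 0 ≤ D * (θ + C₀) := by positivity
      nlinarith
    have c2 : D * (X * (2 * θ + A + 1) / u) ≤ 2 * D * (X * (θ + A + 1) / u) := by
      have h0 : 0 ≤ D := by linarith
      have h1 : X * (2 * θ + A + 1) / u ≤ 2 * (X * (θ + A + 1) / u) := by
        rw [← mul_div_assoc]
        refine div_le_div_of_nonneg_right ?_ hu0.le
        nlinarith
      have h2 := mul_le_mul_of_nonneg_left h1 h0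
      linarith
    have c3 : (m : ℝ) * (A + 3) + θ + 4 * C₀ + (8 * C₀ + 2) ≤
        (3 * m + 20) * (s + b + u + A + 1 + θ + C₀) := by
      have h1 : 0 ≤ (m : ℝ) * A := by positivity
      have h2 : 0 ≤ (m : ℝ) * (s + b + u + θ + C₀) := by positivity
      nlinarith
    have c4 : η * X / 4 ≤ η / 2 * (X * Real.log 2) := by
      have h1 : η * X * (1 / 2) ≤ η * X * Real.log 2 :=
        mul_le_mul_of_nonneg_left hl2'' (by positivity)
      linarith
    have c5 : 2 * D * (s + b + u + A + 1 + θ + C₀) + 2 * D * (X * (θ + A + 1) / u) +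
        (3 * m + 20) * (s + b + u + A + 1 + θ + C₀) ≤ η * X / 4 := by
      have h0 : 0 ≤ D := by linarith
      have h1 : (0 : ℝ) ≤ s + b + u + A + 1 + θ + C₀ := by positivity
      have h2 : (0 : ℝ) ≤ X * (θ + A + 1) / u := by positivity
      have h3 : 0 ≤ M * Real.log 3 := mul_nonneg hM0 hl3
      have h4 : 0 ≤ (2 * (M * Real.log 3) + 2) * (s + b + u + A + 1 + θ + C₀) := by positivity
      have h5 : 0 ≤ (4 * (3 * m + 20) + 2 * (M * Real.log 3) + 2) * (X * (θ + A + 1) / u) := by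
        positivity
      have h6 : (8 * D + 4 * (3 * m + 20) + 2 * (M * Real.log 3) + 2) *
          (s + b + u + A + 1 + θ + C₀) = 8 * D * (s + b + u + A + 1 + θ + C₀) +
          4 * (3 * m + 20) * (s + b + u + A + 1 + θ + C₀) +
          (2 * (M * Real.log 3) + 2) * (s + b + u + A + 1 + θ + C₀) := by ring
      have h7 : (8 * D + 4 * (3 * m + 20) + 2 * (M * Real.log 3) + 2) *
          (X * (θ + A + 1) / u) = 8 * D * (X * (θ + A + 1) / u) +
          (4 * (3 * m + 20) + 2 * (M * Real.log 3) + 2) * (X * (θ + A + 1) / u) := by ring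
      rw [h6, h7] at hsz
      linarith
    have c6 : (1 - η / 2) * (X * Real.log 2) = (1 - η) * (X * Real.log 2) +
        η / 2 * (X * Real.log 2) := by ring
    rw [c6]
    linarith
  have hPle : P ≤ 1 - η / 2 := le_of_mul_le_mul_right hone' (by positivity)
  have hsm : 2 * (η / 4) ≤ Pb (dbl p Z) (fun w : Ω × Ω => ¬ Lg s (kap w.1 - kap w.2)) := by
    have h1 := Pb_not hqlaw.sum_one (fun w : Ω × Ω => Lg s (kap w.1 - kap w.2))
    rw [← hP] at h1
    rw [← hq]
    linarith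
  have hE := popE_ge hp Z kap s (by linarith : (0 : ℝ) ≤ η / 4) hsm
  have hE0 : 0 < Pb p (PopE p Z kap s (η / 4)) := by linarith
  refine ⟨PopE p Z kap s (η / 4), hE, ?_⟩
  have d1 := pop_CH hp Z kap hdeg s (by linarith : (0 : ℝ) < η / 4) (by linarith) hE0
  obtain ⟨R, hR⟩ : ∃ R : Ω → (Fin m →₀ ℕ) → ℤ, R = fun ω => rk s (kap ω) := ⟨_, rfl⟩
  rw [← hR] at d1 ⊢
  have hRG : CH p R G ≤ CH p R Z + θ := by
    have hdetR : Det p kap R := fun ω ω' _ _ h => by rw [hR]; simp only [h]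
    have e1 : CH p kap G = CH p R G + CH p kap (fun ω => (R ω, G ω)) := by
      have h1 := CH_chain hp.nonneg kap R G
      rw [← h1]
      refine CH_congr hp.nonneg ?_ ?_ (fun _ _ _ _ h => h) (fun _ _ _ _ h => h)
      · intro ω ω' a a' h
        have h2 : kap ω = kap ω' := (Prod.ext_iff.1 h).1
        exact Prod.ext h2 (hdetR ω ω' a a' h2)
      · intro ω ω' a a' h
        exact (Prod.ext_iff.1 (Prod.ext_iff.1 h).1).1
    have e2 : CH p kap Z = CH p R Z + CH p kap (fun ω => (R ω, Z ω)) := by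
      have h1 := CH_chain hp.nonneg kap R Z
      rw [← h1]
      refine CH_congr hp.nonneg ?_ ?_ (fun _ _ _ _ h => h) (fun _ _ _ _ h => h)
      · intro ω ω' a a' h
        have h2 : kap ω = kap ω' := (Prod.ext_iff.1 h).1
        exact Prod.ext h2 (hdetR ω ω' a a' h2)
      · intro ω ω' a a' h
        exact (Prod.ext_iff.1 (Prod.ext_iff.1 h).1).1
    have e3 : CH p kap (fun ω => (R ω, Z ω)) ≤ CH p kap (fun ω => (R ω, G ω)) := by
      refine CH_mono_cond hp.nonneg fun ω ω' _ _ h => ?_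
      rw [hZ] at h
      simp only [Prod.mk.injEq] at h ⊢
      tauto
    linarith
  have hdG : Det p Z G := fun ω ω' _ _ h => by
    rw [hZ] at h
    exact (Prod.ext_iff.1 (Prod.ext_iff.1 h).2).2
  have d2 := mi_event hp R G Z hdG hRG (PopE p Z kap s (η / 4))
  have d3 : CH (cond p (PopE p Z kap s (η / 4)) True) R G ≤
      CH (cond p (PopE p Z kap s (η / 4)) True) R Z + 4 * (θ + 1) / η := by
    have h1 : Pb p (PopE p Z kap s (η / 4)) *
        (CH (cond p (PopE p Z kap s (η / 4)) True) R G -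
          CH (cond p (PopE p Z kap s (η / 4)) True) R Z) ≤ θ + 1 := by linarith
    by_contra hcon
    push Not at hcon
    have h2 : 4 * (θ + 1) / η < CH (cond p (PopE p Z kap s (η / 4)) True) R G -
          CH (cond p (PopE p Z kap s (η / 4)) True) R Z := by linarith
    have h3 : 0 < 4 * (θ + 1) / η := by positivity
    have h4 : η / 4 * (4 * (θ + 1) / η) < Pb p (PopE p Z kap s (η / 4)) *
        (CH (cond p (PopE p Z kap s (η / 4)) True) R G -
          CH (cond p (PopE p Z kap s (η / 4)) True) R Z) :=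
      mul_lt_mul' hE h2 h3.le hE0
    have h5 : η / 4 * (4 * (θ + 1) / η) = θ + 1 := by
      field_simp
    linarith
  have d4 : Real.log (1 / (η / 4)) = Real.log (1 / η) + Real.log 4 := by
    rw [show 1 / (η / 4) = 1 / η * 4 by field_simp, Real.log_mul (by positivity) (by norm_num)]
  have d5 : Real.log 4 ≤ 2 := by
    have : Real.log 4 = 2 * Real.log 2 := by
      rw [show (4 : ℝ) = 2 ^ 2 by norm_num, Real.log_pow]
      norm_num
    linarith
  rw [d4, ← hM] at d1
  have d6 : (0 : ℝ) ≤ 8 * D + 4 * (3 * m + 20) := by positivity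
  linarith

end Pool.MIC
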