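import Pool.Agent.H46.MIC.Thm

/-!
# The local theorem, few bits as a hypothesis

`FewH`: the hypotheses. The shape `kap` (in the coordinates `Y`, which may be only a part of the
base) has few bits given the context and the time on the event `G`.
-/

set_option autoImplicit false

namespace Pool.MIC

open Finset Polynomial
open Pool.Agent.H49.Ent Pool.Agent.H32.Dense Pool.STK Pool.BFL Pool.LBL
open Pool.K2S (cpn)

/-- The hypotheses of the local theorem at one context, few bits as a hypothesis. -/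
structure FewH {Ω Λ Γ Β : Type} [Fintype Ω] {k E : ℕ} (p : Ω → ℝ) (L : Ω → Λ) (b : Ω → Γ)
    (B : Ω → Β) (th : Ω → ℕ) (Y : Ω → Fin k → ℕ) (kap : Ω → Pl k) (G : Ω → Prop)
    (β : Λ → Fin k → Fin (E + 1) → ℝ) (g : Λ → Fin k → ℝ[X]) (n D N J X y s bb : ℕ)
    (C₀ θ κ₁ ϖ e : ℝ) : Prop where
  isLaw : IsLaw p
  b_L : Det p L b
  B_L : Det p L B
  Y_B : Det p (fun ω => (B ω, (b ω, th ω))) Y
  th_le : ∀ ω, th ω ≤ 2 ^ J
  Y_lt : ∀ ω i, Y ω i < 2 ^ X
  deg : ∀ ω, (kap ω).totalDegree ≤ D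
  cf : ∀ ω α, |MvPolynomial.coeff α (kap ω)| ≤ 2 ^ bb
  /-- the position is full given the context and the time -/
  full : k * (X * Real.log 2) - θ ≤ CH p Y (fun ω => (b ω, th ω))
  /-- the shape has few bits given the context and the time, on an event -/
  G_ge : ϖ ≤ Pb p G
  few : CH (cond p G True) (fun ω => rk s (kap ω)) (fun ω => (b ω, th ω)) ≤ κ₁
  /-- the times of `N + 1` samples are almost independent of the block of the line -/
  times : CH (Pool.K2S.cpn p L N) (fun w => B (w 0)) (fun w => b (w 0)) ≤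
    CH (Pool.K2S.cpn p L N) (fun w => B (w 0)) (fun w => (b (w 0), fun i => th (w i))) + θ
  /-- typical samples: the path and the gradient of the shape along the path -/
  typ : Pb p (fun ω => ¬ Typ L th Y kap β g n J X s C₀ ω) ≤ e
  /-- two samples of one line have different times -/
  sep : Pb (dbl p L) (fun w : Ω × Ω =>
    |((th w.1 : ℝ) / 2 ^ J) - ((th w.2 : ℝ) / 2 ^ J)| * 2 ^ y < 1) ≤ e

/-- **The local theorem, few bits as a hypothesis.** -/
def MicFewStmt : Prop :=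
  ∀ (k n D E V : ℕ) (C₀ ϖ : ℝ), 1 ≤ C₀ → 0 < ϖ → ϖ ≤ 1 →
    ∃ (A₂ a A K₂ N : ℕ) (c₁ C : ℝ), V * A₂ < a ∧ 0 < c₁ ∧ 1 ≤ C ∧
    ∀ (Ω Λ Γ Β : Type) [Fintype Ω] (p : Ω → ℝ) (L : Ω → Λ) (b : Ω → Γ)
      (B : Ω → Β) (th : Ω → ℕ) (Y : Ω → Fin k → ℕ) (kap : Ω → Pl k) (G : Ω → Prop)
      (β : Λ → Fin k → Fin (E + 1) → ℝ) (g : Λ → Fin k → ℝ[X]) (J X y s bb : ℕ) (θ κ₁ : ℝ),
      0 ≤ θ → 0 ≤ κ₁ → C * (θ + κ₁ + 1) ≤ y → bb + 2 ≤ y → A * y ≤ s → s ≤ X →
      FewH p L b B th Y kap G β g n D N J X y s bb C₀ θ κ₁ ϖ c₁ →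
      ∃ H : Λ → ℤ → Pl (k + 1), (∀ l z, (H l z).totalDegree ≤ K₂) ∧
        c₁ ≤ Pb p (fun ω => G ω ∧ ∀ z : Fin k → ℝ, (∀ i, |z i| ≤ C₀) → ∀ l,
          |MvPolynomial.eval z (MvPolynomial.pderiv l (kap ω)) -
            MvPolynomial.eval (Fin.cons ((th ω : ℝ) / 2 ^ J) z : Fin (k + 1) → ℝ)
              (MvPolynomial.pderiv l.succ (H (L ω) ⌊(th ω : ℝ) / 2 ^ J * 2 ^ (A₂ * y)⌋))| *
            2 ^ (a * y) ≤ 2)

theorem mic_few : MicFewStmt := by
  classical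
  intro k n D E V C₀ ϖ hC₀ hϖ hϖ1
  have hl2 : 0 < Real.log 2 := Real.log_pos (by norm_num)
  obtain ⟨CL, A₂, Nn, hCL, hL1⟩ := lbl_thm k n D E (2 * C₀ + 1) (by linarith)
  obtain ⟨a, ha⟩ : ∃ a : ℕ, a = V * A₂ + 1 := ⟨_, rfl⟩
  obtain ⟨AL, K₂, hL⟩ := hL1 a
  obtain ⟨R, hR⟩ : ∃ R : ℕ, R = 8 * Nn + 8 := ⟨_, rfl⟩
  have hR0 : 0 < R := by omega
  obtain ⟨N, hN⟩ : ∃ N : ℕ, N = R + n - 1 := ⟨_, rfl⟩
  have hN1 : N + 1 = R + n := by omega
  obtain ⟨CS, hCS, hSm⟩ := smp_thm N ϖ hϖ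
  obtain ⟨Cτ, hCτ, hgr⟩ := grad_Sp k D (2 * C₀ + 1) (by linarith)
  obtain ⟨cτ, hcτ⟩ := pow_unbounded_of_one_lt (Cτ + 1) (by norm_num : (1 : ℝ) < 2)
  obtain ⟨C, hC⟩ : ∃ C : ℝ, C = 16 * CL * CL * (CS + 1) := ⟨_, rfl⟩
  have hCL1 : 1 ≤ CL := hCL
  have hC1 : 1 ≤ C := by
    rw [hC]
    nlinarith [mul_le_mul hCL1 hCL1 zero_le_one (by linarith : (0 : ℝ) ≤ CL)]
  obtain ⟨c₁, hc₁⟩ : ∃ c₁ : ℝ, c₁ = ϖ ^ (N + 1) * (1 / (8 * CL)) / 4 /
    ((N + 1) * (N + 2)) := ⟨_, rfl⟩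
  have hπ : 0 < ϖ ^ (N + 1) := by positivity
  have hCL0 : 0 < CL := by linarith
  have hc₁0 : 0 < c₁ := by rw [hc₁]; positivity
  refine ⟨A₂, a, AL + a + cτ + 1, K₂, N, c₁, C, by rw [ha]; omega, hc₁0, hC1, ?_⟩
  intro Ω Λ Γ Β _ p L b B th Y kap G β g J X y s bb θ κ₁ hθ hκ₁0 hy hbb hAs hsX hM
  have hys : y ≤ s := by
    refine le_trans ?_ hAs
    exact Nat.le_mul_of_pos_left y (by omega)
  have hAs' : (AL + a + cτ + 1) * y ≤ s := hAs
  have hp := hM.isLaw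
  have hyR : (y : ℝ) ≤ X := by exact_mod_cast hys.trans hsX
  have hC' : CL * CL * (CS * (θ + κ₁ + 0 + 1) + 1) * 8 ≤ y * Real.log 2 := by
    have h1 : CS * (θ + κ₁ + 0 + 1) + 1 ≤ (CS + 1) * (θ + κ₁ + 1) := by nlinarith
    have h2 : 0 ≤ CL * CL := by positivity
    have h3 := mul_le_mul_of_nonneg_left h1 h2
    have h4 : (1 : ℝ) / 2 ≤ Real.log 2 := by linarith [Real.log_two_gt_d9]
    have h5 : (y : ℝ) * (1 / 2) ≤ y * Real.log 2 :=
      mul_le_mul_of_nonneg_left h4 (Nat.cast_nonneg _)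
    rw [hC] at hy
    nlinarith
  have k1 : CL * (CS * (θ + κ₁ + 0 + 1) + 1) / (1 / (8 * CL)) ≤ y * Real.log 2 := by
    have h1 : CL * (CS * (θ + κ₁ + 0 + 1) + 1) / (1 / (8 * CL)) =
        CL * CL * (CS * (θ + κ₁ + 0 + 1) + 1) * 8 := by
      field_simp
    rw [h1]
    exact hC'
  have k4 : (1 : ℝ) ≤ y := by
    have h1 : C * 1 ≤ C * (θ + κ₁ + 1) := mul_le_mul_of_nonneg_left (by linarith) (by linarith)
    linarith
  have k2 : CL ≤ y := by
    have h1 : C * 1 ≤ C * (θ + κ₁ + 1) := mul_le_mul_of_nonneg_left (by linarith) (by linarith)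
    have h2 : CL ≤ C := by
      rw [hC]
      have h3 : 1 * CL ≤ 16 * (CL * (CS + 1)) * CL :=
        mul_le_mul_of_nonneg_right (by nlinarith) (by linarith)
      linarith
    linarith
  have k6 : CL * (CS * (θ + κ₁ + 0 + 1) + 1) / (1 / (8 * CL)) ≤ X * Real.log 2 :=
    k1.trans (mul_le_mul_of_nonneg_right hyR hl2.le)
  obtain ⟨hall, hsm⟩ := hSm Ω Λ Γ Β ℕ ((Fin k →₀ ℕ) → ℤ) (Fin k → ℕ) p L b B th
    (fun ω => rk s (kap ω)) Y G (k * (X * Real.log 2)) κ₁ 0 θ hp hκ₁0 le_rfl hθ hM.b_L hM.B_L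
    hM.Y_B hM.G_ge hM.few hM.full
    (fun Ω' Τ' _ r f W hr => by
      rw [add_zero]
      exact CH_nat_le hr (fun w => Y (f w)) (fun w => hM.Y_lt (f w)) W)
    hM.times
  obtain ⟨P, hP⟩ : ∃ P : (Fin (N + 1) → Ω) → ℝ, P = cpn p L N := ⟨_, rfl⟩
  rw [← hP] at hall hsm
  have hPlaw : IsLaw P := by rw [hP]; exact Pool.CLU.cpn_law hp L N
  obtain ⟨EE, hEE⟩ : ∃ EE : (Fin (N + 1) → Ω) → Prop, EE = fun w => ∀ i, G (w i) := ⟨_, rfl⟩
  rw [← hEE] at hall hsm
  have hEE0 : 0 < Pb P EE := lt_of_lt_of_le hπ hall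
  obtain ⟨q, hq⟩ : ∃ q : (Fin (N + 1) → Ω) → ℝ, q = cond P EE True := ⟨_, rfl⟩
  rw [← hq] at hsm
  have hqlaw : IsLaw q := by rw [hq]; exact isLaw_ev hPlaw EE hEE0
  obtain ⟨θ', hθ'⟩ : ∃ θ' : ℝ, θ' = CS * (θ + κ₁ + 0 + 1) := ⟨_, rfl⟩
  rw [← hθ'] at hsm k1 k6
  have hθ'0 : 0 ≤ θ' := by rw [hθ']; positivity
  -- the typical event
  obtain ⟨Gd, hGd⟩ : ∃ Gd : (Fin (N + 1) → Ω) → Prop, Gd = fun w =>
    (∀ i, L (w i) = L (w 0)) ∧ (∀ i, Typ L th Y kap β g n J X s C₀ (w i)) ∧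
      (∀ i j, i ≠ j → ¬ |((th (w i) : ℝ) / 2 ^ J) - ((th (w j) : ℝ) / 2 ^ J)| * 2 ^ y < 1) :=
    ⟨_, rfl⟩
  have hGdP : Pb P (fun w => ¬ Gd w) ≤ (N + 1) * (N + 2) * c₁ := by
    obtain ⟨Ev, hEv⟩ : ∃ Ev : Fin (N + 1) ⊕ (Fin (N + 1) × Fin (N + 1)) →
        (Fin (N + 1) → Ω) → Prop, Ev = Sum.elim
        (fun i w => ¬ Typ L th Y kap β g n J X s C₀ (w i))
        (fun ij w => ij.1 ≠ ij.2 ∧
          |((th (w ij.1) : ℝ) / 2 ^ J) - ((th (w ij.2) : ℝ) / 2 ^ J)| * 2 ^ y < 1) := ⟨_, rfl⟩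
    have h1 : Pb P (fun w => ¬ Gd w) ≤ Pb P (fun w => ∃ i, Ev i w) := by
      refine Pb_mono_ae hPlaw.nonneg fun w hw h => ?_
      rw [hGd] at h
      have h2 : ∀ i, L (w i) = L (w 0) := by
        rw [hP] at hw
        exact (Pool.CLU.cpn_pos hp.nonneg L N w hw).2
      by_contra hc
      push Not at hc
      refine h ⟨h2, fun i => ?_, fun i j hij => ?_⟩
      · have h3 := hc (Sum.inl i)
        rw [hEv] at h3
        simp only [Sum.elim_inl, not_not] at h3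
        exact h3
      · have h3 := hc (Sum.inr (i, j))
        rw [hEv] at h3
        simp only [Sum.elim_inr, not_and] at h3
        exact h3 hij
    refine h1.trans ((Pb_exists_le hPlaw.nonneg Ev).trans ?_)
    rw [Fintype.sum_sum_type]
    have h2 : ∀ i : Fin (N + 1), Pb P (Ev (Sum.inl i)) ≤ c₁ := by
      intro i
      refine le_trans (le_of_eq ?_) hM.typ
      rw [hEv, hP]
      exact Marg.Pb_eq (Pool.CLU.cpn_marg hp.nonneg L N i)
        (fun ω => ¬ Typ L th Y kap β g n J X s C₀ ω)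
    have h3 : ∀ ij : Fin (N + 1) × Fin (N + 1), Pb P (Ev (Sum.inr ij)) ≤ c₁ := by
      rintro ⟨i, j⟩
      by_cases hij : i = j
      · have h4 : Pb P (Ev (Sum.inr (i, j))) ≤ 0 := by
          refine (Pb_mono_ae hPlaw.nonneg (B := fun _ => False) fun w _ h => ?_).trans ?_
          · rw [hEv] at h
            simp only [Sum.elim_inr] at h
            exact h.1 hij
          · unfold Pb
            simp
        exact h4.trans hc₁0.le
      · refine le_trans ?_ hM.sep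
        rw [hEv, hP]
        refine le_trans (Pb_mono_ae (hP ▸ hPlaw.nonneg) (B := fun w =>
          |((th (w i, w j).1 : ℝ) / 2 ^ J) - ((th (w i, w j).2 : ℝ) / 2 ^ J)| * 2 ^ y < 1)
          fun w _ h => ?_) (le_of_eq ?_)
        · simp only [Sum.elim_inr] at h
          exact h.2
        · exact Marg.Pb_eq (cpn_pair hp.nonneg L N hij) (fun w : Ω × Ω =>
            |((th w.1 : ℝ) / 2 ^ J) - ((th w.2 : ℝ) / 2 ^ J)| * 2 ^ y < 1)
    have h4 := Finset.sum_le_sum fun (i : Fin (N + 1)) (_ : i ∈ Finset.univ) => h2 i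
    have h5 := Finset.sum_le_sum fun (i : Fin (N + 1) × Fin (N + 1))
      (_ : i ∈ Finset.univ) => h3 i
    rw [Finset.sum_const, Finset.card_univ, Fintype.card_fin, nsmul_eq_mul] at h4
    rw [Finset.sum_const, Finset.card_univ, Fintype.card_prod, Fintype.card_fin,
      nsmul_eq_mul] at h5
    push_cast at h4 h5
    nlinarith
  have hGdq : Pb q (fun w => ¬ Gd w) ≤ 1 / (8 * CL) / 4 := by
    rw [hq]
    refine (Pb_cond_le hPlaw.nonneg EE _ hEE0).trans ?_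
    rw [div_le_iff₀ hEE0]
    refine hGdP.trans ?_
    have h1 : (N + 1 : ℝ) * (N + 2) * c₁ = 1 / (8 * CL) / 4 * ϖ ^ (N + 1) := by
      rw [hc₁]
      have h2 : (0 : ℝ) < (N + 1) * (N + 2) := by positivity
      field_simp
    rw [h1]
    exact mul_le_mul_of_nonneg_left hall (by positivity)
  -- the data of the linear form of lemma B
  obtain ⟨tt, htt⟩ : ∃ tt : ℕ → (Fin (N + 1) → Ω) → ℝ, tt = fun r w =>
    (th (w (ix N r)) : ℝ) / 2 ^ J := ⟨_, rfl⟩
  obtain ⟨c, hc⟩ : ∃ c : (Fin (N + 1) → Ω) → Γ × (Fin (N + 1) → ℕ × ((Fin k →₀ ℕ) → ℤ)),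
    c = fun w => (b (w 0), fun j => (th (w j), rk s (kap (w j)))) := ⟨_, rfl⟩
  obtain ⟨t, ht'⟩ : ∃ t : ℕ → Γ × (Fin (N + 1) → ℕ × ((Fin k →₀ ℕ) → ℤ)) → ℝ,
    t = fun r x => ((x.2 (ix N r)).1 : ℝ) / 2 ^ J := ⟨_, rfl⟩
  obtain ⟨v, hv⟩ : ∃ v : Γ × (Fin (N + 1) → ℕ × ((Fin k →₀ ℕ) → ℤ)) → Fin n → ℝ,
    v = fun x j => ((x.2 (ix N (R + j))).1 : ℝ) / 2 ^ J := ⟨_, rfl⟩
  obtain ⟨S, hSS⟩ : ∃ S : ℕ → Γ × (Fin (N + 1) → ℕ × ((Fin k →₀ ℕ) → ℤ)) → Pl k,
    S = fun r x => Sp D s (x.2 (ix N r)).2 := ⟨_, rfl⟩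
  obtain ⟨S', hS'⟩ : ∃ S' : Γ × (Fin (N + 1) → ℕ × ((Fin k →₀ ℕ) → ℤ)) → Fin n → Pl k,
    S' = fun x j => Sp D s (x.2 (ix N (R + j))).2 := ⟨_, rfl⟩
  have h2s : (0 : ℝ) < 2 ^ s := by positivity
  have hy1 : 1 ≤ y := by exact_mod_cast k4
  -- the gradient at a sample
  have hgrad : ∀ (w : Fin (N + 1) → Ω) (i : Fin (N + 1)), Gd w → ∀ l, |MvPolynomial.eval (pos (β (L (w 0))) ((th (w i) : ℝ) / 2 ^ J))
      (MvPolynomial.pderiv l (Sp D s (rk s (kap (w i))))) -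
        (g (L (w 0)) l).eval ((th (w i) : ℝ) / 2 ^ J)| ≤ (Cτ + 1) / 2 ^ s := by
    intro w i hw l
    rw [hGd] at hw
    obtain ⟨e1, e2, e3⟩ := hw
    obtain ⟨f1, f2, f3, f4⟩ := e2 i
    rw [e1 i] at f1 f2 f3 f4
    have h1 := hgr (kap (w i)) s (hM.deg _) (pos (β (L (w 0))) ((th (w i) : ℝ) / 2 ^ J))
      (fun j => by
        have h2 := f3 j
        have h3 : (Y (w i) j : ℝ) / 2 ^ X ≤ 1 := by
          rw [div_le_one (by positivity)]
          exact_mod_cast (hM.Y_lt (w i) j).le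
        have h4 : 0 ≤ (Y (w i) j : ℝ) / 2 ^ X := by positivity
        have h5 : C₀ / 2 ^ X ≤ C₀ := div_le_self (by linarith) (one_le_pow₀ (by norm_num))
        rw [abs_le] at h2 ⊢
        constructor
        · linarith [h2.1]
        · linarith [h2.2]) l
    have h2 := f4 l
    have h3 : (Cτ + 1) / 2 ^ s = Cτ / 2 ^ s + 1 / 2 ^ s := by ring
    rw [h3]
    rw [abs_le] at h1 h2 ⊢
    constructor <;> linarith [h1.1, h1.2, h2.1, h2.2]
  have hcf : ∀ (w : Fin (N + 1) → Ω) (i : Fin (N + 1)) (α : Fin k →₀ ℕ), |MvPolynomial.coeff α (Sp D s (rk s (kap (w i))) : Pl k)| ≤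
      (2 : ℝ) ^ y := by
    intro w i α
    by_cases hα : α = 0
    · subst hα
      rw [coeff_Sp']
      have h1 : rk s (kap (w i)) 0 = 0 := by
        unfold rk
        rw [if_pos rfl]
      rw [h1]
      simp
    · have h1 := coeff_sub_Sp (s := s) (hM.deg (w i)) α hα
      have h2 := hM.cf (w i) α
      have h3 : (1 : ℝ) / 2 ^ s ≤ 1 := by
        rw [div_le_one (by positivity)]
        exact one_le_pow₀ (by norm_num)
      have h4 : (2 : ℝ) ^ bb + 1 ≤ 2 ^ y := by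
        have h5 : (1 : ℝ) ≤ 2 ^ bb := one_le_pow₀ (by norm_num)
        have h6 : (2 : ℝ) ^ (bb + 1) ≤ 2 ^ y := pow_le_pow_right₀ (by norm_num) (by omega)
        rw [pow_succ] at h6
        linarith
      have h5 := abs_sub_abs_le_abs_sub (MvPolynomial.coeff α (Sp D s (rk s (kap (w i)))))
        (MvPolynomial.coeff α (kap (w i)))
      rw [abs_sub_comm] at h5
      linarith
  have hLB := hL R (Fin (N + 1) → Ω) (Γ × (Fin (N + 1) → ℕ × ((Fin k →₀ ℕ) → ℤ))) q X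
    (fun r w => Y (w (ix N r))) c (fun w => β (L (w 0))) t v S S' (fun w => g (L (w 0))) Gd
    (2 ^ y) ((Cτ + 1) / 2 ^ s) θ' (1 / (8 * CL)) hR0 hqlaw
    (fun r _ w i => hM.Y_lt _ i)
    (fun r x => by rw [hSS]; exact Sp_deg D s _)
    (fun x j => by rw [hS']; exact Sp_deg D s _)
    hθ'0 (by positivity) (by rw [div_le_one (by positivity)]; linarith) (by positivity)
    (fun r _ => by
      have h1 := hsm (ix N r)
      rw [hc]
      exact h1) hGdq k6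
    (by
      rw [← Real.rpow_natCast, ← Real.exp_log (show (0 : ℝ) < 2 ^ ((y : ℕ) : ℝ) by positivity),
        Real.exp_le_exp, Real.log_rpow (by norm_num)]
      exact k1)
    (k2.trans (by
      have := Nat.lt_two_pow_self (n := y)
      exact_mod_cast this.le))
    (by
      rw [div_mul_eq_mul_div, div_le_one h2s, ← pow_mul]
      have h1 : (Cτ + 1) * 2 ^ (y * AL) ≤ (2 : ℝ) ^ cτ * 2 ^ (y * AL) :=
        mul_le_mul_of_nonneg_right hcτ.le (by positivity)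
      refine h1.trans ?_
      rw [← pow_add]
      refine pow_le_pow_right₀ (by norm_num) ?_
      refine le_trans ?_ hAs'
      nlinarith)
    (by
      intro w hw
      have hw' := hw
      rw [hGd] at hw'
      obtain ⟨e1, e2, e3⟩ := hw'
      refine ⟨fun i j => ((e2 0).1 i j).trans (by linarith), ?_, ?_, ?_, (e2 0).2.1, ?_, ?_,
        ?_, ?_, ?_⟩
      · intro r _
        rw [ht', hc]
        simp only
        rw [abs_of_nonneg (by positivity), div_le_one (by positivity)]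
        exact_mod_cast hM.th_le _
      · intro j
        rw [hv, hc]
        simp only
        rw [abs_of_nonneg (by positivity), div_le_one (by positivity)]
        exact_mod_cast hM.th_le _
      · intro i j hij
        rw [hv, hc]
        simp only
        have h1 := e3 (ix N (R + i)) (ix N (R + j)) (by
          intro h
          apply hij
          have h2 := congrArg Fin.val h
          rw [ix_val (by omega), ix_val (by omega)] at h2
          exact Fin.ext (by omega))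
        rw [mul_comm]
        exact not_lt.1 h1
      · intro r hr i
        rw [ht', hc]
        simp only
        have h1 := (e2 (ix N r)).2.2.1 i
        rw [e1] at h1
        refine h1.trans (div_le_div_of_nonneg_right (by linarith) (by positivity))
      · intro r _ α
        rw [hSS, hc]
        exact hcf w _ α
      · intro j α
        rw [hS', hc]
        exact hcf w _ α
      · intro r _ l
        rw [ht', hSS, hc]
        exact hgrad w _ hw l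
      · intro j l
        rw [hv, hS', hc]
        exact hgrad w _ hw l)
  obtain ⟨r, hr, F, hFd, hF⟩ := hLB
  obtain ⟨HH, hHH⟩ : ∃ HH : (Fin (N + 1) → Ω) → ℤ → Pl (k + 1), HH = fun w z =>
    F (v (c w)) (S' (c w)) (fun i : Fin r => (t i (c w), S i (c w))) z := ⟨_, rfl⟩
  have hHHw : ∀ w w' : Fin (N + 1) → Ω, (∀ i, i ≠ ix N r → w i = w' i) → HH w = HH w' := by
    intro w w' h
    have hi1 : ∀ j : Fin n, w (ix N (R + j)) = w' (ix N (R + j)) := fun j => h _ (by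
      intro h1
      have h2 := congrArg Fin.val h1
      have h3 := j.2
      rw [ix_val (by omega), ix_val (by omega)] at h2
      omega)
    have hi2 : ∀ i : Fin r, w (ix N i) = w' (ix N i) := fun i => h _ (by
      intro h1
      have h2 := congrArg Fin.val h1
      have h3 := i.2
      rw [ix_val (by omega), ix_val (by omega)] at h2
      omega)
    have e1 : v (c w) = v (c w') := by
      rw [hv, hc]
      funext j
      simp only
      rw [hi1 j]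
    have e2 : S' (c w) = S' (c w') := by
      rw [hS', hc]
      funext j
      simp only
      rw [hi1 j]
    have e3 : (fun i : Fin r => (t i (c w), S i (c w))) =
        fun i : Fin r => (t i (c w'), S i (c w')) := by
      rw [ht', hSS, hc]
      funext i
      simp only
      rw [hi2 i]
    rw [hHH]
    simp only
    rw [e1, e2, e3]
  obtain ⟨Good, hGood⟩ : ∃ Good : (Fin (N + 1) → Ω) → Ω → Prop, Good = fun w ω =>
    ∀ z : Fin k → ℝ, (∀ i, |z i| ≤ C₀) → ∀ l,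
      |MvPolynomial.eval z (MvPolynomial.pderiv l (kap ω)) -
        MvPolynomial.eval (Fin.cons ((th ω : ℝ) / 2 ^ J) z : Fin (k + 1) → ℝ)
          (MvPolynomial.pderiv l.succ (HH w ⌊(th ω : ℝ) / 2 ^ J * 2 ^ (A₂ * y)⌋))| *
        2 ^ (a * y) ≤ 2 := ⟨_, rfl⟩
  obtain ⟨x, hx⟩ := bst_thm Ω Λ p L N (ix N r) G Good hp (fun w w' h ω => by
    rw [hGood]
    simp only
    rw [hHHw w w' h])
  obtain ⟨Near, hNear⟩ : ∃ Near : (Fin (N + 1) → Ω) → Prop, Near = fun w =>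
    ∀ z : Fin k → ℝ, (∀ i, |z i| ≤ 2 * C₀ + 1) → ∀ l,
      |MvPolynomial.eval z (MvPolynomial.pderiv l (S r (c w))) -
        MvPolynomial.eval (Fin.cons (t r (c w)) z : Fin (k + 1) → ℝ)
          (MvPolynomial.pderiv l.succ (F (v (c w)) (S' (c w))
            (fun i : Fin r => (t i (c w), S i (c w))) ⌊t r (c w) * (2 ^ y) ^ A₂⌋))| *
        (2 ^ y) ^ a ≤ 1 := ⟨_, rfl⟩
  have hF' : Pb q (fun w => Gd w ∧ ¬ Near w) ≤ (Nn : ℝ) / R + CL * (1 / (8 * CL)) := by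
    rw [hNear]
    exact hF
  have hF2 : (Nn : ℝ) / R + CL * (1 / (8 * CL)) ≤ 1 / 4 := by
    have h1 : CL * (1 / (8 * CL)) = 1 / 8 := by
      field_simp
    have h2 : (Nn : ℝ) / R ≤ 1 / 8 := by
      rw [hR]
      push_cast
      rw [div_le_iff₀ (by positivity)]
      linarith
    linarith
  have hhalf : 1 / 2 ≤ Pb q (fun w => Gd w ∧ Near w) := by
    have h1 := Pb_three hqlaw Gd Near
    have h2 : 1 / (8 * CL) / 4 ≤ 1 / 32 := by
      rw [div_div, div_le_div_iff_of_pos_left one_pos (by positivity) (by norm_num)]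
      linarith
    linarith
  have hPP : ϖ ^ (N + 1) / 2 ≤ Pb P (fun w => EE w ∧ (Gd w ∧ Near w)) := by
    rw [← Pb_cond_ge EE (fun w => Gd w ∧ Near w) hEE0, ← hq]
    have h1 := mul_le_mul hhalf hall hπ.le (by linarith)
    linarith
  have hstep : Pb P (fun w => EE w ∧ (Gd w ∧ Near w)) ≤
      Pb P (fun w => (∀ i, G (w i)) ∧ Good w (w (ix N r))) := by
    refine Pb_mono_ae hPlaw.nonneg fun w _ h => ?_
    obtain ⟨h1, h2, h3⟩ := h
    rw [hEE] at h1
    refine ⟨h1, ?_⟩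
    rw [hGood]
    intro z hz l
    rw [hNear] at h3
    have h4 := h3 z (fun i => (hz i).trans (by linarith)) l
    have h5 := hgr (kap (w (ix N r))) s (hM.deg _) z (fun i => (hz i).trans (by linarith)) l
    have h6 : t r (c w) = (th (w (ix N r)) : ℝ) / 2 ^ J := by rw [ht', hc]
    have h7 : S r (c w) = Sp D s (rk s (kap (w (ix N r)))) := by rw [hSS, hc]
    rw [h6, h7] at h4
    have h8 : ((2 : ℝ) ^ y) ^ A₂ = 2 ^ (A₂ * y) := by rw [← pow_mul, mul_comm]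
    have h9 : ((2 : ℝ) ^ y) ^ a = 2 ^ (a * y) := by rw [← pow_mul, mul_comm]
    rw [h8, h9] at h4
    have h10 : HH w ⌊(th (w (ix N r)) : ℝ) / 2 ^ J * 2 ^ (A₂ * y)⌋ = F (v (c w)) (S' (c w))
        (fun i : Fin r => (t i (c w), S i (c w)))
          ⌊(th (w (ix N r)) : ℝ) / 2 ^ J * 2 ^ (A₂ * y)⌋ := by rw [hHH]
    rw [← h10] at h4
    have h11 : Cτ / 2 ^ s * 2 ^ (a * y) ≤ 1 := by
      rw [div_mul_eq_mul_div, div_le_one h2s]
      have h12 : Cτ * 2 ^ (a * y) ≤ (2 : ℝ) ^ cτ * 2 ^ (a * y) :=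
        mul_le_mul_of_nonneg_right (by linarith) (by positivity)
      refine h12.trans ?_
      rw [← pow_add]
      refine pow_le_pow_right₀ (by norm_num) ?_
      refine le_trans ?_ hAs'
      nlinarith
    have h13 := mul_le_mul_of_nonneg_right h5 (by positivity : (0 : ℝ) ≤ 2 ^ (a * y))
    have h14 : ∀ u₁ u₂ u₃ : ℝ, |u₁ - u₂| * 2 ^ (a * y) ≤ 1 → |u₂ - u₃| * 2 ^ (a * y) ≤ 1 →
        |u₁ - u₃| * 2 ^ (a * y) ≤ 2 := by
      intro u₁ u₂ u₃ g1 g2
      have g3 := mul_le_mul_of_nonneg_right (abs_sub_le u₁ u₂ u₃)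
        (by positivity : (0 : ℝ) ≤ 2 ^ (a * y))
      linarith
    exact h14 _ _ _ (h13.trans h11) h4
  refine ⟨fun l z => HH (x l) z, fun l z => by rw [hHH]; exact hFd _ _ _ _, ?_⟩
  have hfin : c₁ ≤ ϖ ^ (N + 1) / 2 := by
    rw [hc₁]
    have h1 : (1 : ℝ) / (8 * CL) ≤ 1 := by
      rw [div_le_one (by positivity)]
      linarith
    have h2 : (1 : ℝ) ≤ (N + 1) * (N + 2) := by
      have : (0 : ℝ) ≤ N := Nat.cast_nonneg _
      nlinarith
    rw [div_le_iff₀ (by positivity)]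
    have h3 : ϖ ^ (N + 1) * (1 / (8 * CL)) ≤ ϖ ^ (N + 1) :=
      mul_le_of_le_one_right hπ.le h1
    have h4 : ϖ ^ (N + 1) / 2 * 1 ≤ ϖ ^ (N + 1) / 2 * ((N + 1) * (N + 2)) :=
      mul_le_mul_of_nonneg_left h2 (by positivity)
    linarith
  rw [hP] at hPP hstep
  refine hfin.trans (hPP.trans (hstep.trans (hx.trans ?_)))
  refine Pb_mono_ae hp.nonneg fun ω _ h => ?_
  have h1 := h.2
  rw [hGood] at h1
  exact ⟨h.1, h1⟩

end Pool.MIC
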