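import Pool.Agent.H46.MIC.Ev
import Pool.Agent.H36.KBX.Coef

/-!
# The lemma (ONE)

`n' = n + Q(Y)`, `Y` is full given `n` and the polynomial `Q`: then `n'` is full on the event where
`Q` is not almost constant.
-/

set_option autoImplicit false

namespace Pool.MIC

open Finset Real
open Pool.Agent.H49.Ent Pool.Agent.H32.Dense Pool.STK Pool.BFL

/-- The polynomial has a nonconstant coefficient larger than `2 ^ (-s)`. -/
def Lg {m : ℕ} (s : ℕ) (P : Pl m) : Prop := ∃ k, k ≠ 0 ∧ 1 / (2 : ℝ) ^ s < |MvPolynomial.coeff k P|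

/-- A polynomial which is not almost constant has a derivative which is not small. -/
theorem lg_point (m K : ℕ) : ∃ c₁ : ℕ, ∀ (P : Pl m) (s : ℕ), P.totalDegree ≤ K → Lg s P →
    ∃ (i : Fin m) (z : Fin m → ℝ), (∀ a, |z a| ≤ 1) ∧
      (1 / 2 : ℝ) ^ (s + c₁) ≤ |MvPolynomial.eval z (MvPolynomial.pderiv i P)| := by
  classical
  obtain ⟨C, hC0, hC⟩ := Pool.Agent.H36.KBX.coef_bound m K
  obtain ⟨c₁, hc₁⟩ := pow_unbounded_of_one_lt (C + 1) (by norm_num : (1 : ℝ) < 2)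
  refine ⟨c₁, ?_⟩
  rintro P s hdeg ⟨k, hk, hlt⟩
  obtain ⟨i, hi⟩ : ∃ i, k i ≠ 0 := by
    by_contra h
    push Not at h
    exact hk (Finsupp.ext fun i => by simpa using h i)
  have hk1 : k - Finsupp.single i 1 + Finsupp.single i 1 = k := by
    refine tsub_add_cancel_of_le ?_
    intro j
    by_cases h : j = i
    · subst h
      simpa using Nat.one_le_iff_ne_zero.2 hi
    · simp [Finsupp.single_apply, Ne.symm h]
  have hco : MvPolynomial.coeff (k - Finsupp.single i 1) (MvPolynomial.pderiv i P) =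
      MvPolynomial.coeff k P * (k i : ℝ) := by
    rw [MvPolynomial.coeff_pderiv, hk1]
    congr 1
    have h1 : (k - Finsupp.single i 1 : Fin m →₀ ℕ) i + 1 = k i := by
      have h2 := Nat.one_le_iff_ne_zero.2 hi
      simp only [Finsupp.coe_tsub, Pi.sub_apply, Finsupp.single_eq_same]
      omega
    exact_mod_cast h1
  by_contra hcon
  push Not at hcon
  have h1 := hC (MvPolynomial.pderiv i P) ((1 / 2 : ℝ) ^ (s + c₁))
    ((Pool.Agent.H50.PW.totalDegree_pderiv_le P i).trans hdeg)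
    (fun y hy => (hcon i y hy).le) (k - Finsupp.single i 1)
  rw [hco, abs_mul] at h1
  have h2 : (1 : ℝ) ≤ |(k i : ℝ)| := by
    rw [Nat.abs_cast]
    exact_mod_cast Nat.one_le_iff_ne_zero.2 hi
  have h3 : |MvPolynomial.coeff k P| ≤ C * (1 / 2 : ℝ) ^ (s + c₁) :=
    (le_mul_of_one_le_right (abs_nonneg _) h2).trans h1
  have h4 : C * (1 / 2 : ℝ) ^ (s + c₁) ≤ 1 / (2 : ℝ) ^ s := by
    have h5 : (0 : ℝ) < 2 ^ s := by positivity
    have h6 : (0 : ℝ) < 2 ^ c₁ := by positivity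
    rw [pow_add, one_div, inv_pow, inv_pow, one_div]
    have h7 : C * (((2 : ℝ) ^ s)⁻¹ * ((2 : ℝ) ^ c₁)⁻¹) = (C * ((2 : ℝ) ^ c₁)⁻¹) * ((2 : ℝ) ^ s)⁻¹ := by
      ring
    rw [h7]
    refine mul_le_of_le_one_left (by positivity) ?_
    rw [← div_eq_mul_inv, div_le_one h6]
    linarith
  exact absurd hlt (not_lt.2 (h3.trans h4))

theorem eval_jac_one {m : ℕ} (P : Pl m) (i : Fin m) (z : Fin m → ℝ) :
    MvPolynomial.eval z (Pool.POLY.jac (fun _ : Fin 1 => P) (fun _ => i)) =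
      MvPolynomial.eval z (MvPolynomial.pderiv i P) := by
  unfold Pool.POLY.jac
  rw [Matrix.det_fin_one]
  rfl

/-- **(ONE)** `n' = n + Q(Y)` up to `C₀`, `Y` full given `(n, c)`, `Q` a function of `c`. -/
theorem one (m K : ℕ) : ∃ C : ℝ, 1 ≤ C ∧ ∀ (Ω κ κ' : Type) [Fintype Ω] (p : Ω → ℝ)
    (X A b s u : ℕ) (Y : Ω → Fin m → ℤ) (n n' : Ω → ℤ) (c : Ω → κ) (c' : Ω → κ') (Q : κ → Pl m)
    (θ C₀ : ℝ), IsLaw p → 1 ≤ u → 0 ≤ θ → 0 ≤ C₀ →
    (∀ ω, 0 < p ω → ∀ i, |((Y ω i : ℤ) : ℝ)| ≤ 2 ^ A * 2 ^ X) →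
    (∀ ω, 0 < p ω → (Q (c ω)).totalDegree ≤ K) →
    (∀ ω, 0 < p ω → ∀ k, k ≠ 0 → |MvPolynomial.coeff k (Q (c ω))| ≤ 2 ^ b) →
    (∀ ω, 0 < p ω → |((n' ω : ℤ) : ℝ) - (n ω : ℤ) - 2 ^ X *
      MvPolynomial.eval (fun i => ((Y ω i : ℤ) : ℝ) / 2 ^ X) (Q (c ω))| ≤ C₀) →
    m * (X * Real.log 2) - θ ≤ CH p Y (fun ω => (n ω, c ω)) →
    Det p (fun ω => (n ω, c ω)) c' →
    Pb p (fun ω => Lg s (Q (c ω))) * (X * Real.log 2) ≤ CH p n' c' +
      (C * (s + b + u + A + 1) + C * (X * (θ + A + 1) / u) + Real.log (4 * C₀ + 3)) := by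
  classical
  obtain ⟨c₁, hc₁⟩ := lg_point m K
  obtain ⟨D, hD1, hD⟩ := Pool.POLY.poly_ent m 1 K
  have hl2 : 0 < Real.log 2 := Real.log_pos (by norm_num)
  have hl2' : Real.log 2 ≤ 1 := by linarith [Real.log_two_lt_d9]
  refine ⟨D * (3 * m + c₁ + 2), by
    have h0 : (0 : ℝ) ≤ m := Nat.cast_nonneg _
    have h1 : (0 : ℝ) ≤ c₁ := Nat.cast_nonneg _
    nlinarith, ?_⟩
  intro Ω κ κ' _ p X A b s u Y n n' c c' Q θ C₀ hp hu hθ hC₀ hY hdeg hcf hn hH hdet
  have hm0 : (0 : ℝ) ≤ m := Nat.cast_nonneg _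
  have hc10 : (0 : ℝ) ≤ c₁ := Nat.cast_nonneg _
  have hX0 : (0 : ℝ) ≤ X := Nat.cast_nonneg _
  have hA0 : (0 : ℝ) ≤ A := Nat.cast_nonneg _
  have hs0 : (0 : ℝ) ≤ s := Nat.cast_nonneg _
  have hb0 : (0 : ℝ) ≤ b := Nat.cast_nonneg _
  have hu1 : (1 : ℝ) ≤ u := by exact_mod_cast hu
  have hu0 : (0 : ℝ) < u := by linarith
  obtain ⟨E, hE⟩ : ∃ E : Ω → Prop, E = fun ω => Lg s (Q (c ω)) := ⟨_, rfl⟩
  rw [← hE]
  have hE0 := Pb_nonneg hp.nonneg E
  have hlog0 : 0 ≤ Real.log (4 * C₀ + 3) := Real.log_nonneg (by linarith)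
  rcases hE0.eq_or_lt with hz | hEp
  · rw [← hz, zero_mul]
    have := CH_nonneg hp.nonneg n' c'
    positivity
  -- the conditional law
  obtain ⟨q, hq⟩ : ∃ q : Ω → ℝ, q = cond p E True := ⟨_, rfl⟩
  have hqlaw : IsLaw q := by rw [hq]; exact isLaw_ev hp E hEp
  have hqpos : ∀ ω, 0 < q ω → 0 < p ω ∧ E ω := by
    intro ω hω
    rw [hq] at hω
    exact ev_pos hp.nonneg E hω
  obtain ⟨ω₀, hω₀⟩ : ∃ ω, 0 < q ω := by
    by_contra h
    push Not at h
    have := Finset.sum_nonpos fun ω (_ : ω ∈ univ) => h ω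
    rw [hqlaw.sum_one] at this
    linarith
  have hω₀E : Lg s (Q (c ω₀)) := by
    have := (hqpos ω₀ hω₀).2
    rw [hE] at this
    exact this
  obtain ⟨i₀, _⟩ := hc₁ (Q (c ω₀)) s (hdeg ω₀ (hqpos ω₀ hω₀).1) hω₀E
  -- the polynomials
  have hex : ∀ x : κ, ∃ (P : Pl m) (i : Fin m), P.totalDegree ≤ K ∧
      (∀ k, |MvPolynomial.coeff k P| ≤ 2 ^ b) ∧
      (((Q x).totalDegree ≤ K ∧ (∀ k, k ≠ 0 → |MvPolynomial.coeff k (Q x)| ≤ 2 ^ b) ∧
        Lg s (Q x)) → P = Q x - MvPolynomial.C (MvPolynomial.coeff 0 (Q x)) ∧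
        ∃ z : Fin m → ℝ, (∀ a, |z a| ≤ 1) ∧
          (1 / 2 : ℝ) ^ (s + c₁) ≤ |MvPolynomial.eval z (MvPolynomial.pderiv i P)|) := by
    intro x
    by_cases hx : (Q x).totalDegree ≤ K ∧ (∀ k, k ≠ 0 → |MvPolynomial.coeff k (Q x)| ≤ 2 ^ b) ∧
        Lg s (Q x)
    · obtain ⟨i, z, hz1, hz2⟩ := hc₁ (Q x) s hx.1 hx.2.2
      refine ⟨Q x - MvPolynomial.C (MvPolynomial.coeff 0 (Q x)), i, ?_, ?_, fun _ => ⟨rfl, z, hz1, ?_⟩⟩
      · refine (MvPolynomial.totalDegree_sub _ _).trans ?_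
        rw [MvPolynomial.totalDegree_C]
        simpa using hx.1
      · intro k
        rw [MvPolynomial.coeff_sub, MvPolynomial.coeff_C]
        by_cases hk : k = 0
        · subst hk
          simp
        · rw [if_neg (Ne.symm hk), sub_zero]
          exact hx.2.1 k hk
      · rw [map_sub, MvPolynomial.pderiv_C, sub_zero]
        exact hz2
    · refine ⟨0, i₀, by simp, fun k => ?_, fun h => absurd h hx⟩
      rw [MvPolynomial.coeff_zero, abs_zero]
      positivity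
  choose P I hP1 hP2 hP3 using hex
  have hgood : ∀ ω, 0 < q ω → (Q (c ω)).totalDegree ≤ K ∧
      (∀ k, k ≠ 0 → |MvPolynomial.coeff k (Q (c ω))| ≤ 2 ^ b) ∧ Lg s (Q (c ω)) := by
    intro ω hω
    obtain ⟨h1, h2⟩ := hqpos ω hω
    rw [hE] at h2
    exact ⟨hdeg ω h1, hcf ω h1, h2⟩
  -- the deficiency
  obtain ⟨e, he⟩ : ∃ e : ℝ, e = (θ + m * (A + 3)) / Pb p E := ⟨_, rfl⟩
  have he0 : 0 ≤ e := by rw [he]; positivity
  have hPbE1 : Pb p E ≤ 1 := by
    have h1 := Pb_not hp.sum_one E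
    have h2 := Pb_nonneg hp.nonneg (fun ω => ¬ E ω)
    linarith
  have hbd : ∀ r : Ω → ℝ, (∀ ω, 0 ≤ r ω) → ∑ ω, r ω = 1 → (∀ ω, 0 < r ω → 0 < p ω) →
      CH r Y (fun ω => (n ω, c ω)) ≤ m * ((X + (A + 3)) * Real.log 2) := by
    intro r hr0 hr1 hrp
    have h1 := CH_le_vec hr0 hr1 Y (fun ω => (n ω, c ω)) (fun _ => 2 * (2 ^ A * 2 ^ X))
      (fun ω ω' h h' _ k => by
        have h2 := hY ω (hrp ω h) k
        have h3 := hY ω' (hrp ω' h') k
        push_cast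
        rw [abs_le] at h2 h3 ⊢
        constructor <;> linarith)
    rw [Ex_const hr1] at h1
    refine h1.trans (mul_le_mul_of_nonneg_left ?_ hm0)
    have h4 : (2 : ℝ) * (2 * (2 ^ A * 2 ^ X)) + 1 ≤ 2 ^ (X + (A + 3)) := by
      have h5 : (1 : ℝ) ≤ 2 ^ A * 2 ^ X := by
        have h6 : (1 : ℝ) ≤ 2 ^ A := one_le_pow₀ (by norm_num)
        have h7 : (1 : ℝ) ≤ 2 ^ X := one_le_pow₀ (by norm_num)
        nlinarith
      have h8 : (2 : ℝ) ^ (X + (A + 3)) = 8 * (2 ^ A * 2 ^ X) := by ring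
      rw [h8]
      linarith
    have h9 := Real.log_le_log (by positivity) h4
    rw [Real.log_pow] at h9
    push_cast at h9
    exact h9
  have hEc : CH p Y (fun ω => (n ω, c ω)) = CH p Y (fun ω => ((n ω, c ω), E ω)) := by
    refine CH_congr hp.nonneg (fun _ _ _ _ h => (Prod.ext_iff.1 h).1)
      (fun _ _ _ _ h => (Prod.ext_iff.1 h).1) ?_ (fun _ _ _ _ h => (Prod.ext_iff.1 h).1)
    intro w w' _ _ h
    have h1 : c w = c w' := (Prod.ext_iff.1 h).2
    refine Prod.ext h ?_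
    show E w = E w'
    rw [hE]
    simp only [h1]
  have hdef : m * (X * Real.log 2) - e ≤ CH q Y (fun ω => (n ω, c ω)) := by
    have h1 := CH_two hp.nonneg Y (fun ω => (n ω, c ω)) E
    rw [← hEc, ← hq] at h1
    have h2 : Pb p (fun ω => ¬ E ω) * CH (cond p E False) Y (fun ω => (n ω, c ω)) ≤
        Pb p (fun ω => ¬ E ω) * (m * ((X + (A + 3)) * Real.log 2)) := by
      have h3 := Pb_nonneg hp.nonneg (fun ω => ¬ E ω)
      rcases h3.eq_or_lt with h4 | h4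
      · rw [← h4, zero_mul, zero_mul]
      · refine mul_le_mul_of_nonneg_left ?_ h3
        refine hbd _ (cond_nonneg hp.nonneg E False) (sum_cond p E ?_) fun ω hω =>
          ((cond_pos_iff hp.nonneg E False ω).1 hω).1
        rw [law_False]
        exact h4.ne'
    have h5 := Pb_not hp.sum_one E
    have h6 : Pb p (fun ω => ¬ E ω) = 1 - Pb p E := by linarith
    rw [h6] at h2 h1
    have h7 : m * (X * Real.log 2) - θ ≤ Pb p E * CH q Y (fun ω => (n ω, c ω)) +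
        (1 - Pb p E) * (m * ((X + (A + 3)) * Real.log 2)) := by linarith
    have h8 : (m : ℝ) * ((A + 3) * Real.log 2) ≤ m * (A + 3) :=
      mul_le_mul_of_nonneg_left (mul_le_of_le_one_right (by linarith) hl2') hm0
    have h9 : (1 - Pb p E) * (m * ((A + 3) * Real.log 2)) ≤ m * (A + 3) := by
      refine (mul_le_of_le_one_left ?_ (by linarith)).trans h8
      positivity
    have h10 : Pb p E * (m * (X * Real.log 2)) - (θ + m * (A + 3)) ≤
        Pb p E * CH q Y (fun ω => (n ω, c ω)) := by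
      have h11 : (1 - Pb p E) * (m * ((X + (A + 3)) * Real.log 2)) =
          (1 - Pb p E) * (m * (X * Real.log 2)) + (1 - Pb p E) * (m * ((A + 3) * Real.log 2)) := by
        ring
      rw [h11] at h7
      linarith
    have h12 : Pb p E * e = θ + m * (A + 3) := by
      rw [he]
      field_simp
    have h13 : Pb p E * (m * (X * Real.log 2) - e) ≤ Pb p E * CH q Y (fun ω => (n ω, c ω)) := by
      rw [mul_sub, h12]
      exact h10
    exact le_of_mul_le_mul_left h13 hEp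
  have hmain := hD Ω (ℤ × κ) q X A (s + c₁) b u Y (fun ω => (n ω, c ω)) (fun x _ => P x.2)
    (fun x _ => I x.2) e hqlaw hu he0 (fun ω hω => hY ω (hqpos ω hω).1) (fun x _ => hP1 x.2)
    (fun x _ k => hP2 x.2 k) (fun ω hω => by
      obtain ⟨_, z, hz1, hz2⟩ := hP3 (c ω) (hgood ω hω)
      refine ⟨z, fun a => (hz1 a).trans (one_le_pow₀ (by norm_num)), ?_⟩
      rw [eval_jac_one]
      exact hz2) hdef
  obtain ⟨V, hV⟩ : ∃ V : Ω → Fin 1 → ℤ, V = fun ω _ => ⌊2 ^ X * MvPolynomial.eval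
    (fun i => ((Y ω i : ℤ) : ℝ) / 2 ^ X) (P (c ω))⌋ := ⟨_, rfl⟩
  have hmain' : X * Real.log 2 - D * ((s + c₁ : ℕ) + b + u + A + 1) * Real.log 2 -
      D * (X * (e + A + 1) / u) ≤ CH q V (fun ω => (n ω, c ω)) := by
    rw [hV]
    have h1 : ((1 : ℕ) : ℝ) * (X * Real.log 2) = X * Real.log 2 := by
      rw [Nat.cast_one, one_mul]
    rw [h1] at hmain
    exact hmain
  have hVn : CH q V (fun ω => (n ω, c ω)) ≤ CH q n' (fun ω => (n ω, c ω)) +
      Real.log (4 * C₀ + 3) := by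
    have h1 := CH_le_add hqlaw.nonneg V n' (fun ω => (n ω, c ω))
    have h2 := CH_le_vec hqlaw.nonneg hqlaw.sum_one V (fun ω => (n' ω, (n ω, c ω)))
      (fun _ => 2 * C₀ + 1) (fun ω ω' h h' hh k => by
        obtain ⟨e1, e2⟩ := Prod.ext_iff.1 hh
        obtain ⟨e3, e4⟩ := Prod.ext_iff.1 e2
        simp only at e1 e3 e4
        have g1 := hn ω (hqpos ω h).1
        have g2 := hn ω' (hqpos ω' h').1
        have g3 := (hP3 (c ω) (hgood ω h)).1
        rw [hV]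
        simp only
        have g4 : ∀ w : Ω, c w = c ω → MvPolynomial.eval (fun i => ((Y w i : ℤ) : ℝ) / 2 ^ X)
            (P (c w)) = MvPolynomial.eval (fun i => ((Y w i : ℤ) : ℝ) / 2 ^ X) (Q (c w)) -
              MvPolynomial.coeff 0 (Q (c ω)) := by
          intro w hw
          rw [hw, g3, map_sub, MvPolynomial.eval_C]
        rw [g4 ω rfl, g4 ω' e4.symm]
        have g5 : |(2 : ℝ) ^ X * (MvPolynomial.eval (fun i => ((Y ω i : ℤ) : ℝ) / 2 ^ X)
            (Q (c ω)) - MvPolynomial.coeff 0 (Q (c ω))) - 2 ^ X *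
            (MvPolynomial.eval (fun i => ((Y ω' i : ℤ) : ℝ) / 2 ^ X) (Q (c ω')) -
            MvPolynomial.coeff 0 (Q (c ω)))| ≤ 2 * C₀ := by
          rw [e1, e3] at g1
          rw [abs_le] at g1 g2 ⊢
          constructor <;> linarith
        have g6 := Pool.Agent.H32.Dense.floor_sub_le_pair
          ((2 : ℝ) ^ X * (MvPolynomial.eval (fun i => ((Y ω i : ℤ) : ℝ) / 2 ^ X)
            (Q (c ω)) - MvPolynomial.coeff 0 (Q (c ω))))
          (2 ^ X * (MvPolynomial.eval (fun i => ((Y ω' i : ℤ) : ℝ) / 2 ^ X) (Q (c ω')) -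
            MvPolynomial.coeff 0 (Q (c ω))))
        exact g6.trans (by linarith))
    rw [Ex_const hqlaw.sum_one] at h2
    have h3 : ((1 : ℕ) : ℝ) * Real.log (2 * (2 * C₀ + 1) + 1) = Real.log (4 * C₀ + 3) := by
      rw [Nat.cast_one, one_mul]
      congr 1
      ring
    rw [h3] at h2
    linarith
  have h1 : Pb p E * CH q n' (fun ω => (n ω, c ω)) ≤ CH p n' (fun ω => (n ω, c ω)) := by
    rw [hq]
    exact CH_ev_le hp.nonneg n' _ E
  have h2 : CH p n' (fun ω => (n ω, c ω)) ≤ CH p n' c' := CH_mono_cond hp.nonneg hdet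
  have h3 : Pb p E * (X * Real.log 2) ≤ Pb p E * (CH q n' (fun ω => (n ω, c ω)) +
      Real.log (4 * C₀ + 3) + D * ((s + c₁ : ℕ) + b + u + A + 1) * Real.log 2 +
      D * (X * (e + A + 1) / u)) := mul_le_mul_of_nonneg_left (by linarith) hE0
  have h4 : Pb p E * Real.log (4 * C₀ + 3) ≤ Real.log (4 * C₀ + 3) :=
    mul_le_of_le_one_left hlog0 hPbE1
  have h5 : Pb p E * (D * ((s + c₁ : ℕ) + b + u + A + 1) * Real.log 2) ≤
      D * (3 * m + c₁ + 2) * (s + b + u + A + 1) := by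
    have hD0 : 0 ≤ D := by linarith
    have g0 : (0 : ℝ) ≤ (s + b + u + A + 1) := by positivity
    have g1 : (0 : ℝ) ≤ D * ((s + c₁ : ℕ) + b + u + A + 1) := by positivity
    refine (mul_le_of_le_one_left (by positivity) hPbE1).trans ?_
    refine (mul_le_of_le_one_right g1 hl2').trans ?_
    rw [mul_assoc]
    refine mul_le_mul_of_nonneg_left ?_ hD0
    push_cast
    have g2 : (c₁ : ℝ) * 1 ≤ c₁ * (s + b + u + A + 1) :=
      mul_le_mul_of_nonneg_left (by linarith) hc10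
    have g3 : (0 : ℝ) ≤ 3 * m * (s + b + u + A + 1) := by positivity
    linarith
  have h6 : Pb p E * (D * (X * (e + A + 1) / u)) ≤
      D * (3 * m + c₁ + 2) * (X * (θ + A + 1) / u) := by
    have hD0 : 0 ≤ D := by linarith
    have g1 : Pb p E * e = θ + m * (A + 3) := by
      rw [he]
      field_simp
    have g2 : Pb p E * (D * (X * (e + A + 1) / u)) =
        D * (X * (Pb p E * e + Pb p E * (A + 1)) / u) := by ring
    rw [g2, g1, mul_assoc]
    refine mul_le_mul_of_nonneg_left ?_ hD0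
    rw [← mul_div_assoc]
    refine div_le_div_of_nonneg_right ?_ hu0.le
    have g3 : Pb p E * (A + 1) ≤ A + 1 := mul_le_of_le_one_left (by linarith) hPbE1
    have g4 : (3 * m + c₁ + 2) * (X * (θ + A + 1)) = X * ((3 * m + c₁ + 2) * (θ + A + 1)) := by ring
    rw [g4]
    refine mul_le_mul_of_nonneg_left ?_ hX0
    have g5 : 0 ≤ (3 * m + c₁ : ℝ) * θ := by positivity
    have g6 : 0 ≤ (c₁ : ℝ) * (A + 1) := by positivity
    have g7 : 0 ≤ (m : ℝ) * A := by positivity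
    nlinarith
  have h7 : Pb p E * (CH q n' (fun ω => (n ω, c ω)) +
      Real.log (4 * C₀ + 3) + D * ((s + c₁ : ℕ) + b + u + A + 1) * Real.log 2 +
      D * (X * (e + A + 1) / u)) = Pb p E * CH q n' (fun ω => (n ω, c ω)) +
      Pb p E * Real.log (4 * C₀ + 3) +
      Pb p E * (D * ((s + c₁ : ℕ) + b + u + A + 1) * Real.log 2) +
      Pb p E * (D * (X * (e + A + 1) / u)) := by ring
  rw [h7] at h3
  linarith

end Pool.MIC
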