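import Pool.Agent.H46.MIC.One
import Pool.Agent.H32.Dense.Conf

/-!
# Popular shapes

If two conditional copies of a polynomial given `Z` are close with probability `≥ η / 2`, then on an
event of probability `≥ η / 4` the rounded polynomial has few values given `Z`.
-/

set_option autoImplicit false

namespace Pool.MIC

open Finset Real
open Pool.Agent.H49.Ent Pool.Agent.H32.Dense Pool.STK Pool.BFL

/-- The rounded nonconstant coefficients. -/
noncomputable def rk {m : ℕ} (s : ℕ) (P : Pl m) : (Fin m →₀ ℕ) → ℤ := fun k =>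
  if k = 0 then 0 else ⌊(2 : ℝ) ^ s * MvPolynomial.coeff k P⌋

/-- The neighbours. -/
noncomputable def nb {m K : ℕ} (v : (Fin m →₀ ℕ) → ℤ)
    (d : {k // k ∈ Pool.Agent.H36.KBX.bx m K} → Fin 3) : (Fin m →₀ ℕ) → ℤ := by
  classical
  exact fun k => v k + (if h : k ∈ Pool.Agent.H36.KBX.bx m K then ((d ⟨k, h⟩ : ℕ) : ℤ) - 1 else 0)

/-- The number of exponents. -/
noncomputable def nM (m K : ℕ) : ℕ := (Pool.Agent.H36.KBX.bx m K).card

open Classical in
/-- All neighbours. -/
noncomputable def Nb (m K : ℕ) (v : (Fin m →₀ ℕ) → ℤ) : Finset ((Fin m →₀ ℕ) → ℤ) :=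
  univ.image (nb (K := K) v)

theorem card_Nb (m K : ℕ) (v : (Fin m →₀ ℕ) → ℤ) : (Nb m K v).card ≤ 3 ^ nM m K := by
  classical
  unfold Nb nM
  refine Finset.card_image_le.trans (le_of_eq ?_)
  rw [Finset.card_univ, Fintype.card_fun, Fintype.card_fin, Fintype.card_coe]

theorem Nb_symm {m K : ℕ} {v v' : (Fin m →₀ ℕ) → ℤ} (h : v' ∈ Nb m K v) : v ∈ Nb m K v' := by
  classical
  unfold Nb at h ⊢
  rw [Finset.mem_image] at h ⊢
  obtain ⟨d, _, hd⟩ := h
  refine ⟨fun k => Fin.rev (d k), Finset.mem_univ _, ?_⟩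
  funext k
  rw [← hd]
  unfold nb
  by_cases hk : k ∈ Pool.Agent.H36.KBX.bx m K
  · simp only [dif_pos hk]
    have h1 : ((Fin.rev (d ⟨k, hk⟩) : ℕ) : ℤ) = 2 - ((d ⟨k, hk⟩ : ℕ) : ℤ) := by
      have h2 := (d ⟨k, hk⟩).2
      rw [Fin.val_rev]
      omega
    rw [h1]
    ring
  · simp only [dif_neg hk]
    ring

/-- Close polynomials have neighbouring rounded coefficients. -/
theorem rk_Nb {m K s : ℕ} {P P' : Pl m} (hP : P.totalDegree ≤ K) (hP' : P'.totalDegree ≤ K)
    (h : ¬ Lg s (P - P')) : rk s P' ∈ Nb m K (rk s P) := by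
  classical
  unfold Lg at h
  push Not at h
  have hcl : ∀ k, |rk s P' k - rk s P k| ≤ 1 := by
    intro k
    unfold rk
    by_cases hk : k = 0
    · simp [hk]
    · rw [if_neg hk, if_neg hk]
      have h1 := h k hk
      rw [MvPolynomial.coeff_sub] at h1
      have h2 : |(2 : ℝ) ^ s * MvPolynomial.coeff k P' - 2 ^ s * MvPolynomial.coeff k P| ≤ 1 := by
        rw [← mul_sub, abs_mul, abs_of_pos (by positivity : (0 : ℝ) < 2 ^ s), abs_sub_comm]
        rw [le_div_iff₀ (by positivity : (0 : ℝ) < 2 ^ s)] at h1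
        linarith
      have h3 := Int.floor_le ((2 : ℝ) ^ s * MvPolynomial.coeff k P')
      have h4 := Int.lt_floor_add_one ((2 : ℝ) ^ s * MvPolynomial.coeff k P')
      have h5 := Int.floor_le ((2 : ℝ) ^ s * MvPolynomial.coeff k P)
      have h6 := Int.lt_floor_add_one ((2 : ℝ) ^ s * MvPolynomial.coeff k P)
      rw [abs_le] at h2 ⊢
      constructor
      · have : ((-2 : ℤ) : ℝ) < ((⌊(2 : ℝ) ^ s * MvPolynomial.coeff k P'⌋ -
            ⌊(2 : ℝ) ^ s * MvPolynomial.coeff k P⌋ : ℤ) : ℝ) := by
          push_cast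
          linarith
        have := Int.cast_lt.1 this
        omega
      · have : ((⌊(2 : ℝ) ^ s * MvPolynomial.coeff k P'⌋ -
            ⌊(2 : ℝ) ^ s * MvPolynomial.coeff k P⌋ : ℤ) : ℝ) < ((2 : ℤ) : ℝ) := by
          push_cast
          linarith
        have := Int.cast_lt.1 this
        omega
  have hout : ∀ k, k ∉ Pool.Agent.H36.KBX.bx m K → rk s P' k = rk s P k := by
    intro k hk
    have h1 : MvPolynomial.coeff k P = 0 := by
      by_contra h2
      exact hk (Pool.Agent.H36.KBX.support_bx P hP (MvPolynomial.mem_support_iff.2 h2))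
    have h1' : MvPolynomial.coeff k P' = 0 := by
      by_contra h2
      exact hk (Pool.Agent.H36.KBX.support_bx P' hP' (MvPolynomial.mem_support_iff.2 h2))
    unfold rk
    rw [h1, h1']
  unfold Nb
  rw [Finset.mem_image]
  have hex : ∀ k : {k // k ∈ Pool.Agent.H36.KBX.bx m K}, ∃ d : Fin 3,
      ((d : ℕ) : ℤ) - 1 = rk s P' k - rk s P k := by
    intro k
    have h1 := abs_le.1 (hcl k)
    rcases (by omega : rk s P' k - rk s P k = -1 ∨ rk s P' k - rk s P k = 0 ∨
      rk s P' k - rk s P k = 1) with h2 | h2 | h2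
    · exact ⟨0, by rw [h2]; simp⟩
    · exact ⟨1, by rw [h2]; simp⟩
    · exact ⟨2, by rw [h2]; simp⟩
  choose d hd using hex
  refine ⟨d, Finset.mem_univ _, ?_⟩
  funext k
  unfold nb
  by_cases hk : k ∈ Pool.Agent.H36.KBX.bx m K
  · simp only [dif_pos hk]
    have := hd ⟨k, hk⟩
    linarith
  · simp only [dif_neg hk]
    rw [hout k hk, add_zero]

variable {Ω : Type} [Fintype Ω]

/-- The sample has a popular shape. -/
def PopE {m : ℕ} {T : Type} (p : Ω → ℝ) (Z : Ω → T) (kap : Ω → Pl m) (s : ℕ) (t : ℝ)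
    (ω : Ω) : Prop :=
  t * law p Z (Z ω) ≤ Pb p (fun ω' => Z ω = Z ω' ∧ ¬ Lg s (kap ω - kap ω'))

/-- On the event, the rounded shape has few values given `Z`. -/
theorem pop_CH {m K : ℕ} {T : Type} {p : Ω → ℝ} (hp : IsLaw p) (Z : Ω → T) (kap : Ω → Pl m)
    (hdeg : ∀ ω, 0 < p ω → (kap ω).totalDegree ≤ K) (s : ℕ) {t : ℝ} (ht : 0 < t) (ht1 : t ≤ 1)
    (hE : 0 < Pb p (PopE p Z kap s t)) :
    CH (cond p (PopE p Z kap s t) True) (fun ω => rk s (kap ω)) Z ≤
      2 * (nM m K * Real.log 3) + Real.log (1 / t) := by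
  classical
  obtain ⟨E, hEd⟩ : ∃ E : Ω → Prop, E = PopE p Z kap s t := ⟨_, rfl⟩
  rw [← hEd] at hE ⊢
  have hq := isLaw_ev hp E hE
  obtain ⟨R, hR⟩ : ∃ R : Ω → (Fin m →₀ ℕ) → ℤ, R = fun ω => rk s (kap ω) := ⟨_, rfl⟩
  rw [← hR]
  obtain ⟨N, hN⟩ : ∃ N : ℕ, N = 3 ^ nM m K := ⟨_, rfl⟩
  have hN0 : (0 : ℝ) < N := by rw [hN]; positivity
  obtain ⟨pop, hpop⟩ : ∃ pop : T → Finset ((Fin m →₀ ℕ) → ℤ), pop = fun z =>
    (univ.image R).filter (fun v => t / N * law p Z z ≤ law p (fun ω => (R ω, Z ω)) (v, z)) :=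
    ⟨_, rfl⟩
  have hcard : ∀ z, 0 < law p Z z → ((pop z).card : ℝ) ≤ N / t := by
    intro z hz
    have h1 : ∑ v ∈ pop z, law p (fun ω => (R ω, Z ω)) (v, z) ≤ law p Z z := by
      have h2 : ∑ v ∈ pop z, law p (fun ω => (R ω, Z ω)) (v, z) ≤
          ∑ v ∈ univ.image R, law p (fun ω => (R ω, Z ω)) (v, z) := by
        rw [hpop]
        exact Finset.sum_le_sum_of_subset_of_nonneg (Finset.filter_subset _ _)
          fun v _ _ => law_nonneg hp.nonneg _ _
      refine h2.trans (le_of_eq ?_)
      unfold law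
      rw [Finset.sum_comm]
      refine Finset.sum_congr rfl fun ω _ => ?_
      by_cases h : Z ω = z
      · rw [if_pos h, Finset.sum_eq_single (R ω)]
        · simp [h]
        · intro v _ hv
          rw [if_neg (by simp [Ne.symm hv])]
        · intro h3
          exact absurd (Finset.mem_image_of_mem _ (Finset.mem_univ ω)) h3
      · rw [if_neg h]
        refine Finset.sum_eq_zero fun v _ => ?_
        rw [if_neg (by simp [h])]
    have h2 : ((pop z).card : ℝ) * (t / N * law p Z z) ≤ law p Z z := by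
      refine le_trans ?_ h1
      rw [← nsmul_eq_mul]
      refine Finset.card_nsmul_le_sum _ _ _ fun v hv => ?_
      rw [hpop] at hv
      exact (Finset.mem_filter.1 hv).2
    have h3 : ((pop z).card : ℝ) * (t / N) ≤ 1 := by
      have h4 : ((pop z).card : ℝ) * (t / N) * law p Z z ≤ 1 * law p Z z := by
        rw [one_mul]
        linarith
      exact le_of_mul_le_mul_right h4 hz
    rw [le_div_iff₀ ht]
    have h4 : ((pop z).card : ℝ) * (t / N) * N = (pop z).card * t := by
      field_simp
    have h5 := mul_le_mul_of_nonneg_right h3 hN0.le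
    rw [h4, one_mul] at h5
    exact h5
  have hmem : ∀ ω, 0 < cond p E True ω → R ω ∈ (pop (Z ω)).biUnion (Nb m K) := by
    intro ω hω
    obtain ⟨h1, h2⟩ := ev_pos hp.nonneg E hω
    rw [hEd] at h2
    unfold PopE at h2
    rw [Finset.mem_biUnion]
    by_contra hcon
    push Not at hcon
    -- all neighbours are unpopular
    have h3 : Pb p (fun ω' => Z ω = Z ω' ∧ ¬ Lg s (kap ω - kap ω')) ≤
        ∑ v ∈ Nb m K (R ω), law p (fun ω => (R ω, Z ω)) (v, Z ω) := by
      unfold Pb law
      rw [Finset.sum_comm]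
      refine Finset.sum_le_sum fun ω' _ => ?_
      by_cases h : Z ω = Z ω' ∧ ¬ Lg s (kap ω - kap ω')
      · rw [if_pos h]
        rcases (hp.nonneg ω').eq_or_lt with h0 | h0
        · rw [← h0]
          refine Finset.sum_nonneg fun v _ => ?_
          split_ifs <;> exact le_rfl
        · have h4 : R ω' ∈ Nb m K (R ω) := by
            rw [hR]
            exact rk_Nb (hdeg ω h1) (hdeg ω' h0) h.2
          have h6 := Finset.single_le_sum (f := fun v =>
            if (R ω', Z ω') = (v, Z ω) then p ω' else 0) (fun v _ => by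

              split_ifs
              · exact hp.nonneg ω'
              · exact le_rfl) h4
          refine le_trans ?_ (h6.trans (le_of_eq (Finset.sum_congr rfl fun v _ => ?_)))
          · simp [h.1]
          · by_cases h7 : (R ω', Z ω') = (v, Z ω)
            · rw [if_pos h7, if_pos h7]
            · rw [if_neg h7, if_neg h7]
      · rw [if_neg h]
        refine Finset.sum_nonneg fun v _ => ?_
        split_ifs
        · exact hp.nonneg ω'
        · exact le_rfl
    have hlz : 0 < law p Z (Z ω) := law_pos hp.nonneg Z h1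
    have h4 : ∑ v ∈ Nb m K (R ω), law p (fun ω => (R ω, Z ω)) (v, Z ω) <
        ∑ _v ∈ Nb m K (R ω), t / N * law p Z (Z ω) := by
      refine Finset.sum_lt_sum_of_nonempty ?_ fun v hv => ?_
      · exact ⟨_, (by
          rw [hR]
          exact rk_Nb (P := kap ω) (P' := kap ω) (hdeg ω h1) (hdeg ω h1) (by
            unfold Lg
            push Not
            intro k _
            rw [sub_self, MvPolynomial.coeff_zero, abs_zero]
            positivity))⟩
      · by_contra hge
        push Not at hge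
        by_cases hvi : v ∈ univ.image R
        · refine hcon v ?_ (Nb_symm hv)
          rw [hpop]
          exact Finset.mem_filter.2 ⟨hvi, hge⟩
        · have h5 : law p (fun ω => (R ω, Z ω)) (v, Z ω) = 0 := by
            unfold law
            refine Finset.sum_eq_zero fun ω' _ => ?_
            rw [if_neg]
            intro h6
            have h7 : R ω' = v := (Prod.ext_iff.1 h6).1
            exact hvi (by
              rw [← h7]
              exact Finset.mem_image_of_mem _ (Finset.mem_univ _))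
          rw [h5] at hge
          have : 0 < t / N * law p Z (Z ω) := by positivity
          linarith
    rw [Finset.sum_const, nsmul_eq_mul] at h4
    have h5 : ((Nb m K (R ω)).card : ℝ) ≤ N := by
      rw [hN]
      exact_mod_cast card_Nb m K (R ω)
    have h6 : ((Nb m K (R ω)).card : ℝ) * (t / N * law p Z (Z ω)) ≤ t * law p Z (Z ω) := by
      have h7 := mul_le_mul_of_nonneg_right h5 (by positivity : 0 ≤ t / N * law p Z (Z ω))
      have h8 : (N : ℝ) * (t / N * law p Z (Z ω)) = t * law p Z (Z ω) := by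
        field_simp
      linarith
    linarith
  have h1 := CH_le_card hq.nonneg hq.sum_one R Z (fun z => (pop z).biUnion (Nb m K)) hmem
  refine h1.trans ?_
  have h2 : Ex (cond p E True) (fun ω => Real.log (((pop (Z ω)).biUnion (Nb m K)).card)) ≤
      Ex (cond p E True) (fun _ => 2 * (nM m K * Real.log 3) + Real.log (1 / t)) := by
    refine Ex_mono hq.nonneg fun ω hω => ?_
    have h3 : (((pop (Z ω)).biUnion (Nb m K)).card : ℝ) ≤ N / t * N := by
      have h4 : ((pop (Z ω)).biUnion (Nb m K)).card ≤ (pop (Z ω)).card * N := by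
        refine Finset.card_biUnion_le_card_mul _ _ _ fun v _ => ?_
        rw [hN]
        exact card_Nb m K v
      have h5 : (((pop (Z ω)).biUnion (Nb m K)).card : ℝ) ≤ (pop (Z ω)).card * N := by
        exact_mod_cast h4
      refine h5.trans (mul_le_mul_of_nonneg_right ?_ hN0.le)
      exact hcard _ (law_pos hp.nonneg Z (ev_pos hp.nonneg E hω).1)
    have h6 : (0 : ℝ) < ((pop (Z ω)).biUnion (Nb m K)).card := by
      exact_mod_cast Finset.card_pos.2 ⟨_, hmem ω hω⟩
    have h7 := Real.log_le_log h6 h3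
    refine h7.trans (le_of_eq ?_)
    rw [show (N : ℝ) / t * N = N * N * (1 / t) by ring, Real.log_mul (by positivity)
      (by positivity), Real.log_mul hN0.ne' hN0.ne', hN]
    push_cast
    rw [Real.log_pow]
    ring
  rw [Ex_const hq.sum_one] at h2
  exact h2

end Pool.MIC
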