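import Pool.Agent.H46.MIC.W0s
import Pool.Agent.H50.LBL.Stm
import Pool.Agent.H5.K2.SEP

/-!
# Micro-fullness over a base, one height coordinate: statements

`SmpStmt`: several samples of one line, the position at each is full given all times and shapes.
`BstStmt`: the best choice of the other samples, as a function of the line.
`MicH`: the hypotheses of the local theorem: `L` is the line with its window, `b` the closed label,
`B` the block of the line, `th` the time, `Y` the position in the base, `nu` the exact height, `ht`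
the height at the centre of the box, `kap` the own shape, `β` the path in the base, `g` the
gradient of the height along the path.
-/

set_option autoImplicit false

namespace Pool.MIC

open Finset Polynomial
open Pool.Agent.H49.Ent Pool.Agent.H32.Dense Pool.STK Pool.BFL Pool.LBL

/-- Several samples of one line. -/
def SmpStmt : Prop :=
  ∀ (n : ℕ) (π : ℝ), 0 < π → ∃ C : ℝ, 1 ≤ C ∧ ∀ (Ω Λ Γ Β Τ Ρ 𝒴 : Type) [Fintype Ω] (p : Ω → ℝ)
    (L : Ω → Λ) (b : Ω → Γ) (B : Ω → Β) (th : Ω → Τ) (R : Ω → Ρ) (Y : Ω → 𝒴) (E : Ω → Prop)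
    (M κ₁ κ₂ θ : ℝ), IsLaw p → 0 ≤ κ₁ → 0 ≤ κ₂ → 0 ≤ θ → Det p L b → Det p L B →
    Det p (fun ω => (B ω, (b ω, th ω))) Y → π ≤ Pb p E →
    CH (cond p E True) R (fun ω => (b ω, th ω)) ≤ κ₁ →
    M - θ ≤ CH p Y (fun ω => (b ω, th ω)) →
    (∀ (Ω' Τ' : Type) [Fintype Ω'] (r : Ω' → ℝ) (f : Ω' → Ω) (W : Ω' → Τ'), IsLaw r →
      CH r (fun w => Y (f w)) W ≤ M + κ₂) →
    CH (Pool.K2S.cpn p L n) (fun w => B (w 0)) (fun w => b (w 0)) ≤
      CH (Pool.K2S.cpn p L n) (fun w => B (w 0)) (fun w => (b (w 0), fun i => th (w i))) + θ →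
    π ^ (n + 1) ≤ Pb (Pool.K2S.cpn p L n) (fun w => ∀ i, E (w i)) ∧
    ∀ i, M - C * (θ + κ₁ + κ₂ + 1) ≤
      CH (cond (Pool.K2S.cpn p L n) (fun w => ∀ i, E (w i)) True) (fun w => Y (w i))
        (fun w => (b (w 0), fun j => (th (w j), R (w j))))

/-- The best choice of the other samples. -/
def BstStmt : Prop :=
  ∀ (Ω Λ : Type) [Fintype Ω] (p : Ω → ℝ) (L : Ω → Λ) (n : ℕ) (r : Fin (n + 1)) (E : Ω → Prop)
    (Good : (Fin (n + 1) → Ω) → Ω → Prop), IsLaw p →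
    (∀ w w' : Fin (n + 1) → Ω, (∀ i, i ≠ r → w i = w' i) → ∀ ω, Good w ω ↔ Good w' ω) →
    ∃ x : Λ → (Fin (n + 1) → Ω),
      Pb (Pool.K2S.cpn p L n) (fun w => (∀ i, E (w i)) ∧ Good w (w r)) ≤
        Pb p (fun ω => E ω ∧ Good (x (L ω)) ω)

/-- The hypotheses of the local theorem at one context. -/
structure MicH {Ω Λ Γ Β : Type} [Fintype Ω] {k E : ℕ} (p : Ω → ℝ) (L : Ω → Λ) (b : Ω → Γ)
    (B : Ω → Β) (th : Ω → ℕ) (Y : Ω → Fin k → ℕ) (nu ht : Ω → ℤ) (kap : Ω → Pl k)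
    (β : Λ → Fin k → Fin (E + 1) → ℝ) (g : Λ → Fin k → ℝ[X]) (n D N J X y s bb : ℕ)
    (C₀ θ η e : ℝ) : Prop where
  isLaw : IsLaw p
  b_L : Det p L b
  B_L : Det p L B
  Y_B : Det p (fun ω => (B ω, (b ω, th ω))) Y
  th_le : ∀ ω, th ω ≤ 2 ^ J
  Y_lt : ∀ ω i, Y ω i < 2 ^ X
  deg : ∀ ω, (kap ω).totalDegree ≤ D
  cf : ∀ ω α, |MvPolynomial.coeff α (kap ω)| ≤ 2 ^ bb
  hgt : ∀ ω, 0 < p ω → |((nu ω : ℤ) : ℝ) - (ht ω : ℤ) - 2 ^ X *
    MvPolynomial.eval (fun i => (Y ω i : ℝ) / 2 ^ X) (kap ω)| ≤ C₀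
  /-- the own shape is almost independent of the exact point -/
  shape : CH p kap (fun ω => (b ω, th ω)) ≤
    CH p kap (fun ω => (nu ω, (Y ω, (b ω, th ω)))) + θ
  /-- the position is full given the own leaf -/
  full : k * (X * Real.log 2) - θ ≤ CH p Y (fun ω => (ht ω, (kap ω, (b ω, th ω))))
  /-- the times of `N + 1` samples are almost independent of the block of the line -/
  times : CH (Pool.K2S.cpn p L N) (fun w => B (w 0)) (fun w => b (w 0)) ≤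
    CH (Pool.K2S.cpn p L N) (fun w => B (w 0)) (fun w => (b (w 0), fun i => th (w i))) + θ
  /-- the exact height is not full -/
  nfull : CH p nu (fun ω => (Y ω, (b ω, th ω))) ≤ (1 - η) * (X * Real.log 2)
  /-- typical samples: the path and the gradient of the own shape along the path -/
  typ : Pb p (fun ω => ¬ ((∀ i j, |β (L ω) i j| ≤ C₀) ∧ (∀ l, (g (L ω) l).degree < n) ∧
    (∀ i, |pos (β (L ω)) ((th ω : ℝ) / 2 ^ J) i - (Y ω i : ℝ) / 2 ^ X| ≤ C₀ / 2 ^ X) ∧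
    ∀ l, |MvPolynomial.eval (pos (β (L ω)) ((th ω : ℝ) / 2 ^ J))
      (MvPolynomial.pderiv l (kap ω)) - (g (L ω) l).eval ((th ω : ℝ) / 2 ^ J)| ≤
        1 / 2 ^ s)) ≤ e
  /-- two samples of one line have different times -/
  sep : Pb (dbl p L) (fun w : Ω × Ω =>
    |((th w.1 : ℝ) / 2 ^ J) - ((th w.2 : ℝ) / 2 ^ J)| * 2 ^ y < 1) ≤ e

/-- **The local theorem.** If the height is not full, the own shape is closed on shorter windows:
on an event of positive probability it is given by a polynomial in the time and the position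
which is a function of the line and of the cell of the time of length `2 ^ (-(A₂ y))`, up to
`2 ^ (-(a y))`, `a > V A₂`. -/
def Mic1Stmt : Prop :=
  ∀ (k n D E V : ℕ) (C₀ η : ℝ), 1 ≤ C₀ → 0 < η → η ≤ 1 →
    ∃ (A₂ a A K₂ N : ℕ) (c₁ C : ℝ), V * A₂ < a ∧ 0 < c₁ ∧ 1 ≤ C ∧
    ∀ (Ω Λ Γ Β : Type) [Fintype Ω] (p : Ω → ℝ) (L : Ω → Λ) (b : Ω → Γ)
      (B : Ω → Β) (th : Ω → ℕ) (Y : Ω → Fin k → ℕ) (nu ht : Ω → ℤ) (kap : Ω → Pl k)
      (β : Λ → Fin k → Fin (E + 1) → ℝ) (g : Λ → Fin k → ℝ[X]) (J X y s bb : ℕ) (θ : ℝ),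
      0 ≤ θ → C * (θ + 1) ≤ y → bb + 2 ≤ y → A * y ≤ s → C * s ≤ X →
      MicH p L b B th Y nu ht kap β g n D N J X y s bb C₀ θ η c₁ →
      ∃ H : Λ → ℤ → Pl (k + 1), (∀ l z, (H l z).totalDegree ≤ K₂) ∧
        c₁ ≤ Pb p (fun ω => ∀ z : Fin k → ℝ, (∀ i, |z i| ≤ C₀) → ∀ l,
          |MvPolynomial.eval z (MvPolynomial.pderiv l (kap ω)) -
            MvPolynomial.eval (Fin.cons ((th ω : ℝ) / 2 ^ J) z : Fin (k + 1) → ℝ)
              (MvPolynomial.pderiv l.succ (H (L ω) ⌊(th ω : ℝ) / 2 ^ J * 2 ^ (A₂ * y)⌋))| *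
            2 ^ (a * y) ≤ 2)

end Pool.MIC
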