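import Pool.Agent.H46.MIC.Mic1
import Pool.Agent.H30.MIC.Samp
import Pool.Agent.H30.MIC.Bst

/-!
# The local theorem
-/

set_option autoImplicit false

namespace Pool.MIC

open Finset Polynomial
open Pool.Agent.H49.Ent Pool.Agent.H32.Dense Pool.STK Pool.BFL Pool.LBL

theorem smp_thm : SmpStmt := by
  intro n ϖ hϖ
  obtain ⟨C, hC, h⟩ := Pool.MIC30.smp_full n ϖ hϖ
  refine ⟨C, hC, ?_⟩
  intro Ω Λ Γ Β Τ Ρ 𝒴 _ p L b B th R Y E M κ₁ κ₂ θ hp h1 h2 h3 hb hB hY hE hR hM hM' hT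
  exact h Ω Λ Γ Β Τ Ρ 𝒴 p L b B th R Y E M κ₁ κ₂ θ hp h1 h2 h3 hb hB hY hE hR hM
    (fun r hr _ => hM' Ω (Γ × Τ) r (fun ω => ω) (fun ω => (b ω, th ω)) hr) hT

theorem bst_thm : BstStmt := by
  intro Ω Λ _ p L n r E Good hp hG
  exact Pool.MIC30.best_others hp L n r E Good hG

/-- **Micro-fullness over a base, one height coordinate.** -/
theorem mic1_thm : Mic1Stmt := mic1_of smp_thm bst_thm

end Pool.MIC
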